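import Pool.Agent.J4H63.ESY.Defs
import Pool.Agent.H628R3.RO.A1

/-!
# Certificates of acceptance
-/

namespace Pool.Agent.J4H63.ESY

open Pool.Agent.NPC Pool.Agent.H628R3.RO

/-- Oracles made from `A`: every string is decided by one bit of `A`, and the bits of `A` can be
found. -/
structure Ext (O : Oracle → Oracle) : Prop where
  loc : ∀ q, ∃ s : List Bool, s.length ≤ q.length ∧ ∀ A A' : Oracle, A s = A' s → O A q = O A' q
  emb : ∃ g : List Bool → List Bool, Poly g ∧ ∀ A s, O A (g s) = A s

/-- the verifier `V` with the bound `p` for the length of the witnesses accepts `q` -/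
def Acc (V : Alg) (p : Polynomial ℕ) (B : Oracle) (q : List Bool) : Prop :=
  ∃ w : List Bool, w.length ≤ p.eval q.length ∧ V.out B (pairBits q w) = some [true]

/-- `N A q` is certified by few short bits of `A`. -/
def Cert (c : Polynomial ℕ) (N : Oracle → List Bool → Prop) : Prop :=
  ∀ A q, N A q → ∃ S : Finset (List Bool), S.card ≤ c.eval q.length ∧
    (∀ s ∈ S, s.length ≤ c.eval q.length) ∧ ∀ A' : Oracle, (∀ s ∈ S, A' s = A s) → N A' q

/-- `R T A q` is certified by few short bits of `T` and `A`. -/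
def Cert2 (c : Polynomial ℕ) (R : Oracle → Oracle → List Bool → Prop) : Prop :=
  ∀ T A q, R T A q → ∃ S S' : Finset (List Bool), S.card ≤ c.eval q.length ∧
    S'.card ≤ c.eval q.length ∧ (∀ s ∈ S, s.length ≤ c.eval q.length) ∧
    (∀ s ∈ S', s.length ≤ c.eval q.length) ∧
    ∀ T' A' : Oracle, (∀ s ∈ S, T' s = T s) → (∀ s ∈ S', A' s = A s) → R T' A' q

theorem eval_mono (p : Polynomial ℕ) {a b : ℕ} (h : a ≤ b) : p.eval a ≤ p.eval b :=
  NPC.eval_mono p h

theorem Cert.mono {c c' : Polynomial ℕ} {N : Oracle → List Bool → Prop} (h : Cert c N)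
    (hc : ∀ n, c.eval n ≤ c'.eval n) : Cert c' N := by
  intro A q hq
  obtain ⟨S, h1, h2, h3⟩ := h A q hq
  exact ⟨S, h1.trans (hc _), fun s hs => (h2 s hs).trans (hc _), h3⟩

theorem acc_cert2 {O : Oracle → Oracle} (hO : Ext O) (V : Alg) (p : Polynomial ℕ) :
    ∃ c : Polynomial ℕ, Cert2 c (fun T A => Acc V p (join T (O A))) := by
  classical
  obtain ⟨qb, hqb⟩ := V.out_local
  have hlen : ∀ q w : List Bool, w.length ≤ p.eval q.length →
      (pairBits q w).length ≤ (2 * Polynomial.X + 1 + p).eval q.length := by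
    intro q w hw
    rw [length_pairBits]
    simp only [Polynomial.eval_add, Polynomial.eval_mul, Polynomial.eval_ofNat,
      Polynomial.eval_one, Polynomial.eval_X]
    omega
  choose s hs hs' using hO.loc
  refine ⟨V.p.comp (2 * Polynomial.X + 1 + p) + qb.comp (2 * Polynomial.X + 1 + p), ?_⟩
  rintro T A q ⟨w, hw, hacc⟩
  obtain ⟨Q, h1, h2, h3⟩ := hqb (join T (O A)) (pairBits q w)
  have hl := hlen q w hw
  have e1 := h1.trans (eval_mono V.p hl)
  have e2 : ∀ z ∈ Q, z.length ≤ (qb.comp (2 * Polynomial.X + 1 + p)).eval q.length := fun z hz => by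
    rw [Polynomial.eval_comp]
    exact (h2 z hz).trans (eval_mono qb hl)
  rw [← Polynomial.eval_comp] at e1
  refine ⟨Q.image List.tail, Q.image (fun z => s z.tail),
    Finset.card_image_le.trans (e1.trans ?_), Finset.card_image_le.trans (e1.trans ?_), ?_, ?_, ?_⟩
  · rw [Polynomial.eval_add]; exact Nat.le_add_right _ _
  · rw [Polynomial.eval_add]; exact Nat.le_add_right _ _
  · intro z hz
    obtain ⟨z', hz', rfl⟩ := Finset.mem_image.1 hz
    have := e2 z' hz'
    rw [List.length_tail, Polynomial.eval_add]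
    omega
  · intro z hz
    obtain ⟨z', hz', rfl⟩ := Finset.mem_image.1 hz
    have h4 := e2 z' hz'
    have h5 := hs z'.tail
    rw [List.length_tail] at h5
    rw [Polynomial.eval_add]
    omega
  · intro T' A' hT hA
    refine ⟨w, hw, ?_⟩
    rw [h3 (join T' (O A')) ?_]
    · exact hacc
    · intro z hz
      rcases z with _ | ⟨b, z⟩
      · rfl
      · cases b with
        | false => exact hT z (Finset.mem_image.2 ⟨_, hz, rfl⟩)
        | true => exact hs' z A' A (hA _ (Finset.mem_image.2 ⟨_, hz, rfl⟩))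

theorem acc_cert {O : Oracle → Oracle} (hO : Ext O) (V : Alg) (p : Polynomial ℕ) :
    ∃ c : Polynomial ℕ, Cert c (fun A => Acc V p (O A)) := by
  classical
  obtain ⟨qb, hqb⟩ := V.out_local
  have hlen : ∀ q w : List Bool, w.length ≤ p.eval q.length →
      (pairBits q w).length ≤ (2 * Polynomial.X + 1 + p).eval q.length := by
    intro q w hw
    rw [length_pairBits]
    simp only [Polynomial.eval_add, Polynomial.eval_mul, Polynomial.eval_ofNat,
      Polynomial.eval_one, Polynomial.eval_X]
    omega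
  choose s hs hs' using hO.loc
  refine ⟨V.p.comp (2 * Polynomial.X + 1 + p) + qb.comp (2 * Polynomial.X + 1 + p), ?_⟩
  rintro A q ⟨w, hw, hacc⟩
  obtain ⟨Q, h1, h2, h3⟩ := hqb (O A) (pairBits q w)
  have hl := hlen q w hw
  have e1 := h1.trans (eval_mono V.p hl)
  have e2 : ∀ z ∈ Q, z.length ≤ (qb.comp (2 * Polynomial.X + 1 + p)).eval q.length := fun z hz => by
    rw [Polynomial.eval_comp]
    exact (h2 z hz).trans (eval_mono qb hl)
  rw [← Polynomial.eval_comp] at e1
  refine ⟨Q.image s, Finset.card_image_le.trans (e1.trans ?_), ?_, ?_⟩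
  · rw [Polynomial.eval_add]; exact Nat.le_add_right _ _
  · intro z hz
    obtain ⟨z', hz', rfl⟩ := Finset.mem_image.1 hz
    have h4 := e2 z' hz'
    have h5 := hs z'
    rw [Polynomial.eval_add]
    omega
  · intro A' hA
    refine ⟨w, hw, ?_⟩
    rw [h3 (O A') ?_]
    · exact hacc
    · intro z hz
      exact hs' z A' A (hA _ (Finset.mem_image.2 ⟨_, hz, rfl⟩))

end Pool.Agent.J4H63.ESY
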