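import Pool.Agent.J4H63.ESY.Meas

/-!
# From all machines at once to one separator: finite extensions
-/

namespace Pool.Agent.J4H63.ESY

open Pool.Agent.NPC Pool.Agent.H628R3.RO

section

variable {N₁ N₂ : Oracle → List Bool → Prop} {A : Oracle}

/-- one step of the construction -/
theorem step {c' : Polynomial ℕ} {R : Oracle → Oracle → List Bool → Prop} (hR : Cert2 c' R)
    (hdisj : ∀ q, ¬ (N₁ A q ∧ N₂ A q)) (n₀ : ℕ) (hA : ∀ F G, A ∉ Good N₁ N₂ R n₀ F G)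
    (T : Oracle) (hT : Sep N₁ N₂ A T) (F : Finset (List Bool)) :
    ∃ (T' : Oracle) (F' : Finset (List Bool)), Sep N₁ N₂ A T' ∧ F ⊆ F' ∧
      (∀ q ∈ F, T' q = T q) ∧ ∃ x : List Bool, n₀ ≤ x.length ∧
        ∀ T'' : Oracle, (∀ q ∈ F', T'' q = T' q) → ¬ (R T'' A x ↔ ¬ InL A x) := by
  classical
  have hex : ∃ T' : Oracle, Sep N₁ N₂ A T' ∧
      (∀ q ∈ F, (T' q = true ↔ q ∈ F.filter (fun q => T q = true))) ∧
      ∃ x : List Bool, n₀ ≤ x.length ∧ ¬ (R T' A x ↔ ¬ InL A x) := by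
    by_contra hno
    refine hA F (F.filter (fun q => T q = true)) ⟨hdisj, fun q hq => ⟨fun h1 => by
      rw [Finset.mem_filter]; exact ⟨hq, (hT q).1 h1⟩, fun h1 => by
      rw [Finset.mem_filter, (hT q).2 h1]; simp⟩, fun T' h1 h2 x hx => ?_⟩
    by_contra h3
    exact hno ⟨T', h1, h2, x, hx, h3⟩
  obtain ⟨T', hT', hTF, x, hx, hne⟩ := hex
  refine ⟨T', F ∪ (finite_length_le (c'.eval x.length)).toFinset, hT',
    Finset.subset_union_left, ?_, x, hx, ?_⟩
  · intro q hq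
    have h3 := hTF q hq
    rw [Finset.mem_filter] at h3
    by_cases h4 : T q = true
    · rw [h4]; exact h3.2 ⟨hq, h4⟩
    · rw [Bool.not_eq_true] at h4
      rw [h4]
      by_contra h5
      rw [Bool.not_eq_false] at h5
      have := (h3.1 h5).2
      rw [h4] at this
      exact Bool.false_ne_true this
  · intro T'' hT''
    have h3 : R T'' A x ↔ R T' A x := hR.congr (fun q hq => hT'' q (Finset.mem_union_right _
      ((Set.Finite.mem_toFinset _).2 hq))) fun _ _ => rfl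
    rw [h3]
    exact hne

theorem exists_sep {ι : Type} [Countable ι] [Nonempty ι] {c' : ι → Polynomial ℕ}
    {R : ι → Oracle → Oracle → List Bool → Prop} (hR : ∀ i, Cert2 (c' i) (R i))
    (hdisj : ∀ q, ¬ (N₁ A q ∧ N₂ A q)) (hA : ∀ i n₀ F G, A ∉ Good N₁ N₂ (R i) n₀ F G) :
    ∃ T : Oracle, Sep N₁ N₂ A T ∧ ∀ i n₀, ∃ x : List Bool, n₀ ≤ x.length ∧
      ¬ (R i T A x ↔ ¬ InL A x) := by
  classical
  obtain ⟨e, he⟩ := exists_surjective_nat (ι × ℕ)
  have hstep : ∀ (n : ℕ) (s : {p : Oracle × Finset (List Bool) // Sep N₁ N₂ A p.1}),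
      ∃ s' : {p : Oracle × Finset (List Bool) // Sep N₁ N₂ A p.1}, s.1.2 ⊆ s'.1.2 ∧
        (∀ q ∈ s.1.2, s'.1.1 q = s.1.1 q) ∧ ∃ x : List Bool, (e n).2 ≤ x.length ∧
          ∀ T'' : Oracle, (∀ q ∈ s'.1.2, T'' q = s'.1.1 q) →
            ¬ (R (e n).1 T'' A x ↔ ¬ InL A x) := by
    intro n s
    obtain ⟨T', F', h1, h2, h3, h4⟩ := step (hR (e n).1) hdisj (e n).2
      (fun F G => hA (e n).1 (e n).2 F G) s.1.1 s.2 s.1.2
    exact ⟨⟨(T', F'), h1⟩, h2, h3, h4⟩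
  choose nxt hn1 hn2 hn3 using hstep
  have h0 : Sep N₁ N₂ A (fun q => decide (N₁ A q)) := by
    intro q
    refine ⟨fun h => by simpa using h, fun h => ?_⟩
    have : ¬ N₁ A q := fun h' => hdisj q ⟨h', h⟩
    simpa using this
  let s : ℕ → {p : Oracle × Finset (List Bool) // Sep N₁ N₂ A p.1} := fun n =>
    Nat.rec ⟨(fun q => decide (N₁ A q), ∅), h0⟩ (fun n s => nxt n s) n
  have hs : ∀ n, s (n + 1) = nxt n (s n) := fun n => rfl
  have hmono : ∀ n m, n ≤ m → (s n).1.2 ⊆ (s m).1.2 ∧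
      ∀ q ∈ (s n).1.2, (s m).1.1 q = (s n).1.1 q := by
    intro n m hnm
    induction m, hnm using Nat.le_induction with
    | base => exact ⟨Finset.Subset.refl _, fun _ _ => rfl⟩
    | succ m _ ih =>
      rw [hs]
      exact ⟨ih.1.trans (hn1 m (s m)), fun q hq => by
        rw [hn2 m (s m) q (ih.1 hq), ih.2 q hq]⟩
  set T : Oracle := fun q => if h : ∃ n, q ∈ (s n).1.2 then (s (Nat.find h)).1.1 q else
    decide (N₁ A q) with hT
  have hTn : ∀ n, ∀ q ∈ (s n).1.2, T q = (s n).1.1 q := by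
    intro n q hq
    have hex : ∃ n, q ∈ (s n).1.2 := ⟨n, hq⟩
    simp only [hT, dif_pos hex]
    exact ((hmono _ n (Nat.find_min' hex hq)).2 q (Nat.find_spec hex)).symm
  refine ⟨T, ?_, ?_⟩
  · intro q
    by_cases hex : ∃ n, q ∈ (s n).1.2
    · simp only [hT, dif_pos hex]
      exact (s (Nat.find hex)).2 q
    · simp only [hT, dif_neg hex]
      exact h0 q
  · intro i n₀
    obtain ⟨n, hn⟩ := he (i, n₀)
    obtain ⟨x, hx, hx'⟩ := hn3 n (s n)
    rw [hn] at hx hx'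
    refine ⟨x, hx, hx' T fun q hq => ?_⟩
    rw [← hs] at hq ⊢
    exact hTn (n + 1) q hq

end

end Pool.Agent.J4H63.ESY
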