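import Pool.Agent.J4H63.ESY.Prob2
import Pool.Agent.H628R3.RO.G1

/-!
# The random language is in `UP_{≤2}`
-/

namespace Pool.Agent.J4H63.ESY

open MeasureTheory Pool.Agent.NPC Pool.Agent.H628R3.RO Filter

/-- the witnesses of `x` -/
def wits (A : Oracle) (x : List Bool) : Set (List Bool) :=
  {y | 5 * y.length = x.length ∧ Hit (3 * y.length) (0, x ++ y) A}

theorem ae_wits : ∀ᵐ A ∂randomOracle, ∃ n₀ : ℕ, ∀ x : List Bool, n₀ ≤ x.length →
    (wits A x).encard ≤ 2 := by
  classical
  set s : ℕ → Set Oracle := fun k => ⋃ x ∈ strs (5 * k), ⋃ t ∈ trip (strs k), ev3 k x t with hs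
  have h1 : ∀ k, randomOracle (s k) ≤ ENNReal.ofReal ((1 / 2) ^ k) := by
    intro k
    have h2 : randomOracle.real (s k) ≤ (1 / 2) ^ k := by
      refine (measureReal_biUnion_finset_le _ _).trans (le_trans ?_ (sum_trip_le k))
      exact Finset.sum_le_sum fun x _ => measureReal_biUnion_finset_le _ _
    rw [← ofReal_measureReal (measure_ne_top _ _)]
    exact ENNReal.ofReal_le_ofReal h2
  have h3 : ∑' k, randomOracle (s k) ≠ ⊤ := by
    refine ne_top_of_le_ne_top ?_ (ENNReal.tsum_le_tsum h1)
    exact (summable_geometric_of_lt_one (by norm_num) (by norm_num)).tsum_ofReal_ne_top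
  filter_upwards [ae_eventually_notMem h3] with A hA
  obtain ⟨K, hK⟩ := eventually_atTop.1 hA
  refine ⟨5 * K, fun x hx => ?_⟩
  by_cases hd : ∃ k, x.length = 5 * k
  · obtain ⟨k, hk⟩ := hd
    have h4 := hK k (by omega)
    set H := (strs k).filter (fun y => A ∈ ones (blk k x y)) with hH
    have h5 : trip H = ∅ := by
      rw [Finset.eq_empty_iff_forall_notMem]
      intro t ht
      refine h4 ?_
      obtain ⟨ht1, ht2⟩ := Finset.mem_filter.1 ht
      simp only [Finset.mem_product, hH, Finset.mem_filter] at ht1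
      simp only [hs, Set.mem_iUnion]
      refine ⟨x, mem_strs.2 hk, t, Finset.mem_filter.2 ⟨?_, ht2⟩, ?_⟩
      · simp only [Finset.mem_product]
        exact ⟨ht1.1.1, ht1.2.1.1, ht1.2.2.1⟩
      · unfold ev3
        rw [ones_union, ones_union]
        exact ⟨ht1.1.2, ht1.2.1.2, ht1.2.2.2⟩
    have h6 := pair_le_trip H
    rw [h5, Finset.card_empty, Finset.offDiag_card] at h6
    have h7 : H.card ≤ 2 := by
      by_contra h
      push Not at h
      have : 3 * H.card ≤ H.card * H.card := Nat.mul_le_mul_right _ (by omega)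
      omega
    have h8 : wits A x = ↑H := by
      ext y
      simp only [wits, Set.mem_ofPred_eq, hH, Finset.coe_filter, mem_strs]
      constructor
      · rintro ⟨a, b⟩
        have : y.length = k := by omega
        rw [this, hit_iff_blk] at b
        exact ⟨this, b⟩
      · rintro ⟨a, b⟩
        refine ⟨by omega, ?_⟩
        rw [a, hit_iff_blk]
        exact b
    rw [h8, Set.encard_coe_eq_coe_finsetCard]
    exact_mod_cast h7
  · have : wits A x = ∅ := by
      rw [Set.eq_empty_iff_forall_notMem]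
      rintro y ⟨hy, _⟩
      exact hd ⟨_, hy.symm⟩
    rw [this, Set.encard_empty]
    exact zero_le

theorem exists_V {O : Oracle → Oracle} (hO : Ext O) (A : Oracle) (n₀ : ℕ) :
    ∃ V : List Bool → List Bool, IsFP (O A) V ∧ ∀ x w : List Bool,
      V (pairBits x w) = [true] ↔ n₀ ≤ x.length ∧ w ∈ wits A x := by
  obtain ⟨g, hg, hg'⟩ := hO.emb
  set Q : List Bool → List (List Bool) := fun z =>
    (asks (3 * (unpair z).2.length) 0 ((unpair z).1 ++ (unpair z).2)).map g with hQ
  set T : List Bool × List Bool → Bool := fun p =>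
    decide (5 * (unpair p.1).2.length = (unpair p.1).1.length) &&
      (decide (n₀ ≤ (unpair p.1).1.length) && p.2.all id) with hT
  have hx : Poly (fun z : List Bool => (unpair z).1) := Poly.fst poly_unpair
  have hw : Poly (fun z : List Bool => (unpair z).2) := Poly.snd poly_unpair
  have pQ : Poly Q := by
    refine NPC.Poly.map (F := fun (_ : List Bool) (q : List Bool) => g q)
      (p_asks ?_ (UPoly.const 0) (Poly.append hx hw)) (hg.comp (Poly.snd Poly.id))
    exact UPoly.mul (UPoly.const 3) (UPoly.length hw)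
  have pT : Poly T := by
    have h1 : Poly (fun p : List Bool × List Bool => (unpair p.1).1) := hx.comp (Poly.fst Poly.id)
    have h2 : Poly (fun p : List Bool × List Bool => (unpair p.1).2) := hw.comp (Poly.fst Poly.id)
    exact Poly.and (Poly.decide_eq (Poly.mul (NPC.Poly.const 5) (Poly.length h2)) (Poly.length h1))
      (Poly.and (Poly.decide_le (NPC.Poly.const n₀) (Poly.length h1)) (p_all_id (Poly.snd Poly.id)))
  have h1 : IsFP (O A) (fun y => (fun z : List Bool × List Bool => [T z]) (y, (Q y).map (O A))) :=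
    IsFP.tt (Q := Q) (H := fun z => [T z]) pQ (Poly.cons pT (NPC.Poly.const []))
  refine ⟨_, h1, fun x w => ?_⟩
  have h3 : (Q (pairBits x w)).map (O A) = (asks (3 * w.length) 0 (x ++ w)).map A := by
    simp only [hQ, unpair_pairBits, List.map_map]
    exact List.map_congr_left fun q _ => hg' A q
  simp only [List.cons.injEq, and_true, h3, hT, unpair_pairBits, Bool.and_eq_true,
    decide_eq_true_eq, asks_all, wits, Set.mem_ofPred_eq]
  tauto

theorem isUP2 {O : Oracle → Oracle} (hO : Ext O) {A : Oracle} {n₀ : ℕ}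
    (h : ∀ x : List Bool, n₀ ≤ x.length → (wits A x).encard ≤ 2) :
    IsUP2 (O A) {x | n₀ ≤ x.length ∧ InL A x} := by
  obtain ⟨V, h1, h2⟩ := exists_V hO A n₀
  refine ⟨V, Polynomial.X, h1, fun x => ?_, fun x => ?_⟩
  · simp only [h2, Polynomial.eval_X, Set.mem_ofPred_eq]
    constructor
    · rintro ⟨hn, y, hy, hy'⟩
      exact ⟨y, by omega, hn, hy, hy'⟩
    · rintro ⟨y, _, hn, hy, hy'⟩
      exact ⟨hn, y, hy, hy'⟩
  · simp only [h2]
    by_cases hn : n₀ ≤ x.length
    · refine le_trans (Set.encard_le_encard ?_) (h x hn)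
      rintro y ⟨_, _, hy⟩
      exact hy
    · have : {w : List Bool | w.length ≤ Polynomial.eval x.length Polynomial.X ∧
          n₀ ≤ x.length ∧ w ∈ wits A x} = ∅ := by
        rw [Set.eq_empty_iff_forall_notMem]
        rintro y ⟨_, h3, _⟩
        exact hn h3
      rw [this, Set.encard_empty]
      exact zero_le

theorem isNP_inL {O : Oracle → Oracle} (hO : Ext O) (A : Oracle) :
    IsNP (O A) {x | InL A x} := by
  obtain ⟨V, h1, h2⟩ := exists_V hO A 0
  refine ⟨V, Polynomial.X, h1, fun x => ?_⟩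
  simp only [h2, Polynomial.eval_X, Set.mem_ofPred_eq]
  constructor
  · rintro ⟨y, hy, hy'⟩
    exact ⟨y, by omega, Nat.zero_le _, hy, hy'⟩
  · rintro ⟨y, _, _, hy, hy'⟩
    exact ⟨y, hy, hy'⟩

end Pool.Agent.J4H63.ESY
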