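import Pool.Agent.J4H63.ESY.Main
import Pool.Agent.J4H63.ESY.Sep
import Pool.Agent.J4H63.ESY.UP
import Pool.Agent.H628R3.RO.A3

/-!
# No disjoint NP-pair is hard relative to a random oracle
-/

namespace Pool.Agent.J4H63.ESY

open MeasureTheory Pool.Agent.NPC Pool.Agent.H628R3.RO Filter

instance countable_poly : Countable (Polynomial ℕ) := by
  have : Function.Injective (fun p : Polynomial ℕ => (p.toFinsupp.coeff : ℕ →₀ ℕ)) := by
    intro p q h
    ext n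
    exact DFunLike.congr_fun h n
  exact this.countable

theorem Cert2.monoR {c c' : Polynomial ℕ} {R : Oracle → Oracle → List Bool → Prop} (h : Cert2 c R)
    (hc : ∀ n, c.eval n ≤ c'.eval n) : Cert2 c' R := by
  intro T A q hq
  obtain ⟨S, S', h1, h2, h3, h4, h5⟩ := h T A q hq
  exact ⟨S, S', h1.trans (hc _), h2.trans (hc _), fun s hs => (h3 s hs).trans (hc _),
    fun s hs => (h4 s hs).trans (hc _), h5⟩

/-- an oracle algorithm which computes the function on the right -/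
theorem isP_isCoNP {B : Oracle} {L : Set (List Bool)} (h : IsP B L) : IsCoNP B L := by
  obtain ⟨F, hF, hL⟩ := h
  have h1 : IsFP B (fun y => F (unpair y).1) := IsFP.comp hF (IsFP.of_poly (Poly.fst poly_unpair))
  have h2 : IsFP B (fun z : List Bool => if z = [true] then ([] : List Bool) else [true]) :=
    IsFP.of_poly (Poly.ite (Poly.decide_eq Poly.id (NPC.Poly.const _)) (NPC.Poly.const _)
      (NPC.Poly.const _))
  refine ⟨_, 0, IsFP.comp h2 h1, fun x => ?_⟩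
  simp only [unpair_pairBits, Set.mem_compl_iff, hL]
  constructor
  · intro h
    exact ⟨[], by simp, by rw [if_neg h]⟩
  · rintro ⟨_, _, h⟩ h'
    rw [if_pos h'] at h
    simp at h

/-- the separator for a pair, for a typical oracle -/
theorem sep_of_good {O : Oracle → Oracle} (hO : Ext O) {A : Oracle}
    (hA : ∀ (M₁ M₂ M : Alg × Polynomial ℕ) (n₀ : ℕ) (F G : Finset (List Bool)),
      A ∉ Good (fun A => Acc M₁.1 M₁.2 (O A)) (fun A => Acc M₂.1 M₂.2 (O A))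
        (fun T A => Acc M.1 M.2 (join T (O A))) n₀ F G) (n₀ : ℕ)
    {L₀ L₁ : Set (List Bool)} (hL : IsPair (IsNP (O A)) L₀ L₁) : ∃ T : Oracle, Separates T L₀ L₁ ∧
        ¬ IsCoNP (join T (O A)) {x | n₀ ≤ x.length ∧ InL A x} := by
  obtain ⟨⟨V₀, p₀, ⟨M₀, hM₀⟩, hV₀⟩, ⟨V₁, p₁, ⟨M₁, hM₁⟩, hV₁⟩, hdisj⟩ := hL
  have e0 : ∀ x, x ∈ L₀ ↔ Acc M₀ p₀ (O A) x := by
    intro x
    rw [hV₀ x]
    unfold Acc
    simp only [hM₀, Option.some.injEq]
  have e1 : ∀ x, x ∈ L₁ ↔ Acc M₁ p₁ (O A) x := by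
    intro x
    rw [hV₁ x]
    unfold Acc
    simp only [hM₁, Option.some.injEq]
  have hc : ∀ i : Alg × Polynomial ℕ, ∃ c, Cert2 c (fun T A => Acc i.1 i.2 (join T (O A))) :=
    fun i => acc_cert2 hO i.1 i.2
  choose c hc using hc
  have : Nonempty (Alg × Polynomial ℕ) := ⟨(M₀, p₀)⟩
  obtain ⟨T, hT, hT'⟩ := exists_sep (N₁ := fun A => Acc M₀ p₀ (O A))
    (N₂ := fun A => Acc M₁ p₁ (O A)) (A := A) hc
    (fun q ⟨h1, h2⟩ => hdisj q ⟨(e0 q).2 h1, (e1 q).2 h2⟩)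
    (fun i n₀ F G => hA (M₀, p₀) (M₁, p₁) i n₀ F G)
  refine ⟨T, ⟨fun x hx => (hT x).1 ((e0 x).1 hx), fun x hx => (hT x).2 ((e1 x).1 hx)⟩, ?_⟩
  rintro ⟨V, p, ⟨M, hM⟩, hV⟩
  obtain ⟨x, hx, hne⟩ := hT' (M, p) n₀
  refine hne ?_
  have h := hV x
  simp only [Set.mem_compl_iff, Set.mem_ofPred_eq, hx, true_and] at h
  rw [h]
  simp only [Acc, hM, Option.some.injEq]

theorem main {O : Oracle → Oracle} (hO : Ext O) : ∀ᵐ A ∂randomOracle,
    ∃ L : Set (List Bool), IsUP2 (O A) L ∧ ∀ L₀ L₁ : Set (List Bool),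
      IsPair (IsNP (O A)) L₀ L₁ → ∃ T : Oracle, Separates T L₀ L₁ ∧
        ¬ IsCoNP (join T (O A)) L := by
  classical
  have hgood : ∀ᵐ A ∂randomOracle, ∀ (M₁ M₂ M : Alg × Polynomial ℕ) (n₀ : ℕ)
      (F G : Finset (List Bool)),
      A ∉ Good (fun A => Acc M₁.1 M₁.2 (O A)) (fun A => Acc M₂.1 M₂.2 (O A))
        (fun T A => Acc M.1 M.2 (join T (O A))) n₀ F G := by
    simp only [ae_all_iff]
    intro M₁ M₂ M n₀ F G
    obtain ⟨c₁, h₁⟩ := acc_cert hO M₁.1 M₁.2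
    obtain ⟨c₂, h₂⟩ := acc_cert hO M₂.1 M₂.2
    obtain ⟨c₃, h₃⟩ := acc_cert2 hO M.1 M.2
    have h₁' := h₁.mono (c' := c₁ + c₂) fun n => by rw [Polynomial.eval_add]; omega
    have h₂' := h₂.mono (c' := c₁ + c₂) fun n => by rw [Polynomial.eval_add]; omega
    have h := prob_good (n₀ := n₀) (F := F) (G := G) h₁' h₂' h₃
    rw [prob, measureReal_eq_zero_iff] at h
    exact measure_eq_zero_iff_ae_notMem.1 h
  filter_upwards [hgood, ae_wits] with A hA hw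
  obtain ⟨n₀, hn₀⟩ := hw
  exact ⟨{x | n₀ ≤ x.length ∧ InL A x}, isUP2 hO hn₀, fun L₀ L₁ hL => sep_of_good hO hA n₀ hL⟩

theorem ext_id : Ext (fun A => A) where
  loc q := ⟨q, le_rfl, fun _ _ h => h⟩
  emb := ⟨fun x => x, Poly.id, fun _ _ => rfl⟩

theorem ext_join (E : Oracle) : Ext (fun A => join A E) where
  loc q := by
    rcases q with _ | ⟨b, q⟩
    · exact ⟨[], le_rfl, fun _ _ _ => rfl⟩
    · cases b with
      | false => exact ⟨q, by simp, fun _ _ h => h⟩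
      | true => exact ⟨q, by simp, fun _ _ _ => rfl⟩
  emb := ⟨fun x => false :: x, Poly.cons (NPC.Poly.const false) Poly.id, fun _ _ => rfl⟩

end Pool.Agent.J4H63.ESY
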