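import Pool.Agent.H628R3.RO.Defs

/-!
# Disjoint NP-pairs relative to an oracle: definitions

Oracles, oracle algorithms, `IsFP`, `IsNP`, `IsCoNP`, `IsUP`, `IsPair` and `randomOracle` are
defined in `Pool/Agent/H628R3/RO/Defs.lean`.
-/

namespace Pool.Agent.J4H63.ESY

open Pool.Agent.NPC Pool.Agent.H628R3.RO

/-- The join `A ⊕ B` of two oracles: the strings `0 q` with `q ∈ A` and the strings `1 q` with
`q ∈ B` (here `0`, `1` are `false`, `true`). -/
def join (A B : Oracle) : Oracle
  | [] => false
  | false :: q => A q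
  | true :: q => B q

/-- `P` relative to `A`. -/
def IsP (A : Oracle) (L : Set (List Bool)) : Prop :=
  ∃ F : List Bool → List Bool, IsFP A F ∧ ∀ x, x ∈ L ↔ F x = [true]

/-- `UP_{≤2}` relative to `A`: the languages in `NP` relative to `A` with a verifier for which no
`x` has more than two witnesses. -/
def IsUP2 (A : Oracle) (L : Set (List Bool)) : Prop :=
  ∃ (V : List Bool → List Bool) (p : Polynomial ℕ), IsFP A V ∧
    (∀ x, x ∈ L ↔ ∃ w : List Bool, w.length ≤ p.eval x.length ∧ V (pairBits x w) = [true]) ∧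
    ∀ x, {w : List Bool | w.length ≤ p.eval x.length ∧ V (pairBits x w) = [true]}.encard ≤ 2

/-- `T` separates `L₀` from `L₁`: it contains `L₀` and is disjoint from `L₁`. -/
def Separates (T : Oracle) (L₀ L₁ : Set (List Bool)) : Prop :=
  (∀ x ∈ L₀, T x = true) ∧ ∀ x ∈ L₁, T x = false

/-- Relative to `B` no disjoint NP-pair is hard for `L`: every disjoint NP-pair `(L₀, L₁)` has a
separator `T` such that `L` is not polynomial-time Turing reducible to `T`, and not even in `coNP`
relative to `T` (all machines may use `B` as well). -/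
def NoPairHardFor (B : Oracle) (L : Set (List Bool)) : Prop :=
  ∀ L₀ L₁ : Set (List Bool), IsPair (IsNP B) L₀ L₁ →
    ∃ T : Oracle, Separates T L₀ L₁ ∧ ¬ IsP (join T B) L ∧ ¬ IsCoNP (join T B) L

end Pool.Agent.J4H63.ESY
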