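import Pool.Agent.H628R3.RO.D2
import Mathlib.MeasureTheory.Measure.SeparableMeasure

/-!
# Approximation of events by events which depend on finitely many strings
-/

namespace Pool.Agent.J4H63.ESY

open MeasureTheory Pool.Agent.NPC Pool.Agent.H628R3.RO

theorem approx {D : Set Oracle} (hD : MeasurableSet D) {ε : ℝ} (hε : 0 < ε) :
    ∃ (k₀ : ℕ) (C : Set Oracle), Loc {s | s.length ≤ k₀} C ∧ prob (C \ D) ≤ ε ∧
      prob (D \ C) ≤ ε := by
  classical
  have hdense := Measure.MeasureDense.of_generateFrom_isSetAlgebra_finite
    (μ := randomOracle) (𝒜 := measurableCylinders (fun _ : List Bool => Bool))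
    ⟨empty_mem_measurableCylinders _, fun s hs => compl_mem_measurableCylinders hs,
      fun s t hs ht => union_mem_measurableCylinders hs ht⟩
    generateFrom_measurableCylinders.symm
  obtain ⟨C, hC, hlt⟩ := hdense.approx D hD (measure_ne_top _ _) ε hε
  have hr : randomOracle.real (symmDiff D C) ≤ ε := by
    rw [measureReal_def]
    exact ENNReal.toReal_le_of_le_ofReal hε.le hlt.le
  obtain ⟨s, S, -, rfl⟩ := (mem_measurableCylinders C).1 hC
  refine ⟨s.sup List.length, cylinder s S, ?_, ?_, ?_⟩
  · refine loc_of_imp fun A A' h hA => ?_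
    rw [mem_cylinder] at hA ⊢
    convert hA using 1
    funext i
    exact (h i.1 (Finset.le_sup (f := List.length) i.2)).symm
  · exact (measureReal_mono (fun A hA => Or.inr hA)).trans hr
  · exact (measureReal_mono (fun A hA => Or.inl hA)).trans hr

end Pool.Agent.J4H63.ESY
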