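import Pool.Agent.J4H63.ESY.Local
import Pool.Agent.H628R3.RO.M2

/-!
# The combinatorial part: for a fixed oracle, almost all plantings lead out of the good event
-/

namespace Pool.Agent.J4H63.ESY

open Pool.Agent.NPC Pool.Agent.H628R3.RO

/-- The random language: `x` has a witness `y` of length `|x| / 5`, a string for which a block of
`3 |y|` bits of the oracle consists of ones. -/
def InL (A : Oracle) (x : List Bool) : Prop :=
  ∃ y : List Bool, 5 * y.length = x.length ∧ Hit (3 * y.length) (0, x ++ y) A

/-- `T` is a separator -/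
def Sep (N₁ N₂ : Oracle → List Bool → Prop) (A T : Oracle) : Prop :=
  ∀ q, (N₁ A q → T q = true) ∧ (N₂ A q → T q = false)

/-- The good event: the pair `(N₁, N₂)` is disjoint, and for all separators with the given values on
`F` (the strings in `G` are in the separator, those in `F \ G` are not) the machine `R` decides the
complement of the random language for long inputs. -/
def Good (N₁ N₂ : Oracle → List Bool → Prop) (R : Oracle → Oracle → List Bool → Prop) (n₀ : ℕ)
    (F G : Finset (List Bool)) : Set Oracle :=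
  {A | (∀ q, ¬ (N₁ A q ∧ N₂ A q)) ∧ (∀ q ∈ F, (N₁ A q → q ∈ G) ∧ (N₂ A q → q ∉ G)) ∧
    ∀ T, Sep N₁ N₂ A T → (∀ q ∈ F, (T q = true ↔ q ∈ G)) →
      ∀ x : List Bool, n₀ ≤ x.length → (R T A x ↔ ¬ InL A x)}

/-- the pair is not disjoint on the strings of length at most `l` -/
def Viol (N₁ N₂ : Oracle → List Bool → Prop) (l : ℕ) : Set Oracle :=
  {A | ∃ q : List Bool, q.length ≤ l ∧ N₁ A q ∧ N₂ A q}

/-- the strings of length `n` -/
def strs (n : ℕ) : Finset (List Bool) := Finset.univ.image (fun v : Fin n → Bool => List.ofFn v)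

theorem mem_strs {n : ℕ} {w : List Bool} : w ∈ strs n ↔ w.length = n := by
  unfold strs
  rw [Finset.mem_image]
  constructor
  · rintro ⟨v, _, rfl⟩
    exact List.length_ofFn
  · intro h
    subst h
    exact ⟨fun i => w.get i, Finset.mem_univ _, List.ofFn_get w⟩

theorem card_strs (n : ℕ) : (strs n).card = 2 ^ n := by
  rw [strs, Finset.card_image_of_injective _ List.ofFn_injective]
  simp

/-- the block for the witness `y` of `x` -/
def blk (k : ℕ) (x y : List Bool) : Finset (List Bool) := spots (3 * k) (0, x ++ y)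

theorem card_blk (k : ℕ) (x y : List Bool) : (blk k x y).card = 3 * k := M2.card_spots _ _

theorem blk_disj {k k' : ℕ} {x x' y y' s : List Bool} (hl : y.length = y'.length)
    (h : s ∈ blk k x y) (h' : s ∈ blk k' x' y') : x = x' ∧ y = y' := by
  unfold blk at h h'
  rw [M2.mem_spots] at h h'
  obtain ⟨i, _, rfl⟩ := h
  obtain ⟨i', _, h3⟩ := h'
  obtain ⟨_, _, h6⟩ := M2.pos_inj h3
  exact ((List.append_inj_right' h6 hl.symm) ▸ ⟨(List.append_inj_left' h6 hl.symm).symm, rfl⟩)

theorem hit_iff_blk {k : ℕ} {x y : List Bool} {A : Oracle} :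
    Hit (3 * k) (0, x ++ y) A ↔ ∀ s ∈ blk k x y, A s = true := M2.hit_iff

open Classical in
/-- the strings `y` whose block meets `S` -/
noncomputable def meet (k : ℕ) (x : List Bool) (S : Finset (List Bool)) : Finset (List Bool) :=
  (strs k).filter (fun y => ∃ s ∈ S, s ∈ blk k x y)

theorem card_meet (k : ℕ) (x : List Bool) (S : Finset (List Bool)) :
    (meet k x S).card ≤ S.card := by
  classical
  have h : ∀ y ∈ meet k x S, ∃ s ∈ S, s ∈ blk k x y := fun y hy => (Finset.mem_filter.1 hy).2
  choose! f hf hf' using h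
  refine Finset.card_le_card_of_injOn f (fun y hy => hf y hy) ?_
  intro y hy y' hy' h
  have h1 := hf' y hy
  have h2 := hf' y' hy'
  have h3 : f y = f y' := h
  rw [h3] at h1
  refine (blk_disj ?_ h1 h2).2
  rw [mem_strs.1 (Finset.mem_filter.1 hy).1, mem_strs.1 (Finset.mem_filter.1 hy').1]

theorem not_mem_meet {k : ℕ} {x y : List Bool} {S : Finset (List Bool)} (hy : y ∈ strs k)
    (h : y ∉ meet k x S) : ∀ s ∈ S, s ∉ blk k x y := by
  intro s hs hb
  exact h (Finset.mem_filter.2 ⟨hy, s, hs, hb⟩)

/-- one planting -/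
def pl (k : ℕ) (x y : List Bool) (A : Oracle) : Oracle := plant (blk k x y) A

/-- two plantings -/
def pl2 (k : ℕ) (x y y' : List Bool) (A : Oracle) : Oracle := plant (blk k x y ∪ blk k x y') A

theorem pl_of_not_mem {k : ℕ} {x y s : List Bool} {A : Oracle} (h : s ∉ blk k x y) :
    pl k x y A s = A s := by
  unfold pl plant
  rw [if_neg h]

theorem pl2_left {k : ℕ} {x y y' s : List Bool} {A : Oracle} (h : s ∉ blk k x y') :
    pl2 k x y y' A s = pl k x y A s := by
  unfold pl2 pl plant
  by_cases h1 : s ∈ blk k x y <;> simp [h, h1]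

theorem pl2_right {k : ℕ} {x y y' s : List Bool} {A : Oracle} (h : s ∉ blk k x y) :
    pl2 k x y y' A s = pl k x y' A s := by
  unfold pl2 pl plant
  by_cases h1 : s ∈ blk k x y' <;> simp [h, h1]

theorem inL_pl {k : ℕ} {x y : List Bool} (hx : x.length = 5 * k) (hy : y ∈ strs k) (A : Oracle) :
    InL (pl k x y A) x := by
  rw [mem_strs] at hy
  refine ⟨y, by omega, ?_⟩
  rw [hy, hit_iff_blk]
  intro s hs
  unfold pl plant
  rw [if_pos hs]

section

variable {c c' : Polynomial ℕ} {N₁ N₂ : Oracle → List Bool → Prop}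
  {R : Oracle → Oracle → List Bool → Prop} {n₀ : ℕ} {F G : Finset (List Bool)}

open Classical in
/-- the plantings which put `q` into `N` -/
noncomputable def pset (N : Oracle → List Bool → Prop) (A : Oracle) (k : ℕ) (x q : List Bool) :
    Finset (List Bool) := (strs k).filter (fun y => N (pl k x y A) q)

open Classical in
/-- the pairs of plantings which lead to a violation -/
noncomputable def vset (N₁ N₂ : Oracle → List Bool → Prop) (l : ℕ) (A : Oracle) (k : ℕ)
    (x : List Bool) : Finset (List Bool × List Bool) :=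
  (strs k ×ˢ strs k).filter (fun y => y.1 ≠ y.2 ∧ pl2 k x y.1 y.2 A ∈ Viol N₁ N₂ l)

theorem card_mul_le (h₁ : Cert c N₁) (h₂ : Cert c N₂) (A : Oracle) (k : ℕ) (x q : List Bool)
    {l : ℕ} (hq : q.length ≤ l) :
    (pset N₁ A k x q).card * (pset N₂ A k x q).card ≤
      (vset N₁ N₂ l A k x).card + 2 ^ k * (2 * c.eval l + 1) := by
  classical
  have g1 : ∀ y ∈ pset N₁ A k x q, ∃ S : Finset (List Bool), S.card ≤ c.eval l ∧
      ∀ A' : Oracle, (∀ s ∈ S, A' s = pl k x y A s) → N₁ A' q := by
    intro y hy
    obtain ⟨S, h3, _, h4⟩ := h₁ _ _ (Finset.mem_filter.1 hy).2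
    exact ⟨S, h3.trans (eval_mono c hq), h4⟩
  have g2 : ∀ y ∈ pset N₂ A k x q, ∃ S : Finset (List Bool), S.card ≤ c.eval l ∧
      ∀ A' : Oracle, (∀ s ∈ S, A' s = pl k x y A s) → N₂ A' q := by
    intro y hy
    obtain ⟨S, h3, _, h4⟩ := h₂ _ _ (Finset.mem_filter.1 hy).2
    exact ⟨S, h3.trans (eval_mono c hq), h4⟩
  choose! S₁ hS₁ hS₁' using g1
  choose! S₂ hS₂ hS₂' using g2
  rw [← Finset.card_product]
  have hsub : pset N₁ A k x q ×ˢ pset N₂ A k x q ⊆
      (vset N₁ N₂ l A k x ∪ (strs k).image (fun y => (y, y))) ∪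
        ((pset N₁ A k x q).biUnion (fun y => (meet k x (S₁ y)).image (fun y' => (y, y'))) ∪
          (pset N₂ A k x q).biUnion (fun y' => (meet k x (S₂ y')).image (fun y => (y, y')))) := by
    rintro ⟨y, y'⟩ hyy
    obtain ⟨hy, hy'⟩ := Finset.mem_product.1 hyy
    simp only at hy hy'
    have m1 := (Finset.mem_filter.1 hy).1
    have m2 := (Finset.mem_filter.1 hy').1
    by_cases hne : y = y'
    · subst hne
      exact Finset.mem_union_left _ (Finset.mem_union_right _
        (Finset.mem_image.2 ⟨y, m1, rfl⟩))
    by_cases hm1 : y' ∈ meet k x (S₁ y)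
    · exact Finset.mem_union_right _ (Finset.mem_union_left _ (Finset.mem_biUnion.2
        ⟨y, hy, Finset.mem_image.2 ⟨y', hm1, rfl⟩⟩))
    by_cases hm2 : y ∈ meet k x (S₂ y')
    · exact Finset.mem_union_right _ (Finset.mem_union_right _ (Finset.mem_biUnion.2
        ⟨y', hy', Finset.mem_image.2 ⟨y, hm2, rfl⟩⟩))
    refine Finset.mem_union_left _ (Finset.mem_union_left _ (Finset.mem_filter.2
      ⟨Finset.mem_product.2 ⟨m1, m2⟩, hne, q, hq, ?_, ?_⟩))
    · exact hS₁' y hy _ fun s hs => pl2_left (not_mem_meet m2 hm1 s hs)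
    · exact hS₂' y' hy' _ fun s hs => pl2_right (not_mem_meet m1 hm2 s hs)
  refine (Finset.card_le_card hsub).trans ?_
  refine (Finset.card_union_le _ _).trans ?_
  have e1 : (vset N₁ N₂ l A k x ∪ (strs k).image (fun y => (y, y))).card ≤
      (vset N₁ N₂ l A k x).card + 2 ^ k := by
    refine (Finset.card_union_le _ _).trans ?_
    have : ((strs k).image (fun y => (y, y))).card ≤ 2 ^ k := by
      refine Finset.card_image_le.trans ?_
      rw [card_strs]
    omega
  have hp : ∀ N : Oracle → List Bool → Prop, (pset N A k x q).card ≤ 2 ^ k := by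
    intro N
    refine (Finset.card_filter_le _ _).trans ?_
    rw [card_strs]
  have e2 : ((pset N₁ A k x q).biUnion
      (fun y => (meet k x (S₁ y)).image (fun y' => (y, y')))).card ≤ 2 ^ k * c.eval l := by
    refine Finset.card_biUnion_le.trans ?_
    refine (Finset.sum_le_card_nsmul _ _ (c.eval l) fun y hy => ?_).trans ?_
    · exact Finset.card_image_le.trans ((card_meet _ _ _).trans (hS₁ y hy))
    · rw [smul_eq_mul]
      exact Nat.mul_le_mul_right _ (hp _)
  have e3 : ((pset N₂ A k x q).biUnion
      (fun y' => (meet k x (S₂ y')).image (fun y => (y, y')))).card ≤ 2 ^ k * c.eval l := by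
    refine Finset.card_biUnion_le.trans ?_
    refine (Finset.sum_le_card_nsmul _ _ (c.eval l) fun y hy => ?_).trans ?_
    · exact Finset.card_image_le.trans ((card_meet _ _ _).trans (hS₂ y hy))
    · rw [smul_eq_mul]
      exact Nat.mul_le_mul_right _ (hp _)
  have e4 : (((pset N₁ A k x q).biUnion (fun y => (meet k x (S₁ y)).image (fun y' => (y, y')))) ∪
          (pset N₂ A k x q).biUnion
            (fun y' => (meet k x (S₂ y')).image (fun y => (y, y')))).card ≤
      2 ^ k * c.eval l + 2 ^ k * c.eval l :=
    (Finset.card_union_le _ _).trans (Nat.add_le_add e2 e3)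
  have e5 : 2 ^ k * (2 * c.eval l + 1) = 2 ^ k * c.eval l + 2 ^ k * c.eval l + 2 ^ k := by ring
  omega

theorem t_mul_min_le (t a b : ℕ) : t * min a b ≤ t * t + a * b := by
  rcases Nat.le_total t (min a b) with h | h
  · have h1 : t * min a b ≤ min a b * min a b := Nat.mul_le_mul_right _ h
    have h2 : min a b * min a b ≤ a * b := Nat.mul_le_mul (Nat.min_le_left _ _) (Nat.min_le_right _ _)
    omega
  · have : t * min a b ≤ t * t := Nat.mul_le_mul_left _ h
    omega

open Classical in
/-- For a good oracle and an `x` outside of the language almost all plantings lead to oracles which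
are not good. -/
theorem det (h₁ : Cert c N₁) (h₂ : Cert c N₂) (hR : Cert2 c' R) {A : Oracle}
    (hA : A ∈ Good N₁ N₂ R n₀ F G) {k : ℕ} {x : List Bool} (hx : x.length = 5 * k)
    (hk : n₀ ≤ 5 * k) (hxL : ¬ InL A x) (t : ℕ) {l : ℕ} (hl : l = c'.eval (5 * k)) :
    t * ((strs k).filter (fun y => pl k x y A ∈ Good N₁ N₂ R n₀ F G)).card ≤
      t * (l + l * c.eval l) + l * (t * t + ((vset N₁ N₂ l A k x).card +
        2 ^ k * (2 * c.eval l + 1))) := by
  obtain ⟨hdisj, hcons, hall⟩ := hA
  -- the ideal separator
  set Ts : Oracle := fun q => if q ∈ F then decide (q ∈ G) else if N₁ A q then true else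
    if N₂ A q then false else decide ((pset N₂ A k x q).card ≤ (pset N₁ A k x q).card) with hTs
  have hsep : Sep N₁ N₂ A Ts := by
    intro q
    by_cases hF : q ∈ F
    · obtain ⟨h3, h4⟩ := hcons q hF
      simp only [hTs, if_pos hF]
      exact ⟨fun h => by simpa using h3 h, fun h => by simpa using h4 h⟩
    · simp only [hTs, if_neg hF]
      refine ⟨fun h => by rw [if_pos h], fun h => ?_⟩
      rw [if_neg (fun h' => hdisj q ⟨h', h⟩), if_pos h]
  have hTF : ∀ q ∈ F, (Ts q = true ↔ q ∈ G) := by
    intro q hF
    simp only [hTs, if_pos hF, decide_eq_true_eq]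
  have hRs : R Ts A x := (hall Ts hsep hTF x (by omega)).2 hxL
  obtain ⟨S, S', hS, hS', hSl, _, hcert⟩ := hR Ts A x hRs
  rw [hx, ← hl] at hS hS' hSl
  -- the bad plantings for a question
  let bad : List Bool → Finset (List Bool) := fun q =>
    if q ∈ F then ∅ else if N₁ A q then pset N₂ A k x q \ pset N₁ A k x q else
      if N₂ A q then pset N₁ A k x q \ pset N₂ A k x q else
        if (pset N₂ A k x q).card ≤ (pset N₁ A k x q).card then pset N₂ A k x q else
          pset N₁ A k x q
  have hbad : ∀ q ∈ S, t * (bad q).card ≤ t * c.eval l + (t * t +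
      ((vset N₁ N₂ l A k x).card + 2 ^ k * (2 * c.eval l + 1))) := by
    intro q hq
    have hql := hSl q hq
    by_cases hF : q ∈ F
    · simp [bad, hF]
    by_cases hn1 : N₁ A q
    · have : (bad q).card ≤ c.eval l := by
        simp only [bad, if_neg hF, if_pos hn1]
        obtain ⟨U, hU1, _, hU2⟩ := h₁ A q hn1
        refine (Finset.card_le_card ?_).trans ((card_meet k x U).trans
          (hU1.trans (eval_mono c hql)))
        intro y hy
        rw [Finset.mem_sdiff] at hy
        have hys := (Finset.mem_filter.1 hy.1).1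
        by_contra hm
        refine hy.2 (Finset.mem_filter.2 ⟨hys, hU2 _ fun s hs => ?_⟩)
        exact pl_of_not_mem (not_mem_meet hys hm s hs)
      exact (Nat.mul_le_mul_left t this).trans (Nat.le_add_right _ _)
    by_cases hn2 : N₂ A q
    · have : (bad q).card ≤ c.eval l := by
        simp only [bad, if_neg hF, if_neg hn1, if_pos hn2]
        obtain ⟨U, hU1, _, hU2⟩ := h₂ A q hn2
        refine (Finset.card_le_card ?_).trans ((card_meet k x U).trans
          (hU1.trans (eval_mono c hql)))
        intro y hy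
        rw [Finset.mem_sdiff] at hy
        have hys := (Finset.mem_filter.1 hy.1).1
        by_contra hm
        refine hy.2 (Finset.mem_filter.2 ⟨hys, hU2 _ fun s hs => ?_⟩)
        exact pl_of_not_mem (not_mem_meet hys hm s hs)
      exact (Nat.mul_le_mul_left t this).trans (Nat.le_add_right _ _)
    · have h3 : (bad q).card = min (pset N₁ A k x q).card (pset N₂ A k x q).card := by
        simp only [bad, if_neg hF, if_neg hn1, if_neg hn2]
        split_ifs with h
        · rw [Nat.min_eq_right h]
        · rw [Nat.min_eq_left (by omega)]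
      rw [h3]
      have h4 := t_mul_min_le t (pset N₁ A k x q).card (pset N₂ A k x q).card
      have h5 := card_mul_le h₁ h₂ A k x q hql
      omega
  have hsub : (strs k).filter (fun y => pl k x y A ∈ Good N₁ N₂ R n₀ F G) ⊆
      meet k x S' ∪ S.biUnion bad := by
    intro y hy
    obtain ⟨hys, hyG⟩ := Finset.mem_filter.1 hy
    by_contra hno
    rw [Finset.mem_union, not_or] at hno
    obtain ⟨hm, hb⟩ := hno
    obtain ⟨hdisj', hcons', hall'⟩ := hyG
    have hb' : ∀ q ∈ S, y ∉ bad q := fun q hq h => hb (Finset.mem_biUnion.2 ⟨q, hq, h⟩)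
    -- the separator for the planted oracle
    set T' : Oracle := fun q => if q ∈ S ∨ q ∈ F then Ts q else decide (N₁ (pl k x y A) q)
      with hT'
    have hsep' : Sep N₁ N₂ (pl k x y A) T' := by
      intro q
      by_cases hq : q ∈ S ∨ q ∈ F
      · simp only [hT', if_pos hq]
        by_cases hF : q ∈ F
        · obtain ⟨h3, h4⟩ := hcons' q hF
          constructor
          · intro h; exact (hTF q hF).2 (h3 h)
          · intro h
            have := h4 h
            rw [← hTF q hF] at this
            simpa using this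
        · have hqS : q ∈ S := hq.resolve_right hF
          have hby := hb' q hqS
          have m1 : y ∈ pset N₁ A k x q ↔ N₁ (pl k x y A) q := by
            simp only [pset, Finset.mem_filter, hys, true_and]
          have m2 : y ∈ pset N₂ A k x q ↔ N₂ (pl k x y A) q := by
            simp only [pset, Finset.mem_filter, hys, true_and]
          by_cases hn1 : N₁ A q
          · have hTq : Ts q = true := by simp only [hTs, if_neg hF, if_pos hn1]
            simp only [bad, if_neg hF, if_pos hn1, Finset.mem_sdiff, m1, m2, not_and, not_not]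
              at hby
            refine ⟨fun _ => hTq, fun h => absurd ⟨hby h, h⟩ (hdisj' q)⟩
          by_cases hn2 : N₂ A q
          · have hTq : Ts q = false := by simp only [hTs, if_neg hF, if_neg hn1, if_pos hn2]
            simp only [bad, if_neg hF, if_neg hn1, if_pos hn2, Finset.mem_sdiff, m1, m2, not_and,
              not_not] at hby
            refine ⟨fun h => absurd ⟨h, hby h⟩ (hdisj' q), fun _ => hTq⟩
          · by_cases hle : (pset N₂ A k x q).card ≤ (pset N₁ A k x q).card
            · have hTq : Ts q = true := by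
                simp only [hTs, if_neg hF, if_neg hn1, if_neg hn2, hle, decide_true]
              simp only [bad, if_neg hF, if_neg hn1, if_neg hn2, if_pos hle, m2] at hby
              exact ⟨fun _ => hTq, fun h => absurd h hby⟩
            · have hTq : Ts q = false := by
                simp only [hTs, if_neg hF, if_neg hn1, if_neg hn2, hle, decide_false]
              simp only [bad, if_neg hF, if_neg hn1, if_neg hn2, if_neg hle, m1] at hby
              exact ⟨fun h => absurd h hby, fun _ => hTq⟩
      · simp only [hT', if_neg hq]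
        refine ⟨fun h => by simpa using h, fun h => ?_⟩
        have : ¬ N₁ (pl k x y A) q := fun h' => hdisj' q ⟨h', h⟩
        simpa using this
    have hTF' : ∀ q ∈ F, (T' q = true ↔ q ∈ G) := by
      intro q hF
      simp only [hT', hF, or_true, if_true]
      exact hTF q hF
    have h3 := hall' T' hsep' hTF' x (by omega)
    have h4 : R T' (pl k x y A) x := by
      refine hcert T' (pl k x y A) ?_ ?_
      · intro s hs
        simp only [hT', hs, true_or, if_true]
      · intro s hs
        exact pl_of_not_mem (not_mem_meet hys hm s hs)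
    exact h3.1 h4 (inL_pl hx hys A)
  have h6 : ((strs k).filter (fun y => pl k x y A ∈ Good N₁ N₂ R n₀ F G)).card ≤
      l + ∑ q ∈ S, (bad q).card := by
    refine (Finset.card_le_card hsub).trans ((Finset.card_union_le _ _).trans ?_)
    exact Nat.add_le_add ((card_meet _ _ _).trans hS') Finset.card_biUnion_le
  have h7 : t * ∑ q ∈ S, (bad q).card ≤ l * (t * c.eval l + (t * t +
      ((vset N₁ N₂ l A k x).card + 2 ^ k * (2 * c.eval l + 1)))) := by
    rw [Finset.mul_sum]
    refine (Finset.sum_le_card_nsmul _ _ _ hbad).trans ?_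
    rw [smul_eq_mul]
    exact Nat.mul_le_mul_right _ hS
  calc t * ((strs k).filter (fun y => pl k x y A ∈ Good N₁ N₂ R n₀ F G)).card
      ≤ t * (l + ∑ q ∈ S, (bad q).card) := Nat.mul_le_mul_left _ h6
    _ = t * l + t * ∑ q ∈ S, (bad q).card := by ring
    _ ≤ t * l + l * (t * c.eval l + (t * t +
      ((vset N₁ N₂ l A k x).card + 2 ^ k * (2 * c.eval l + 1)))) := Nat.add_le_add_left h7 _
    _ = _ := by ring

end

end Pool.Agent.J4H63.ESY
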