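import Pool.Agent.J4H63.ESY.Final
import Mathlib.Topology.Baire.Lemmas

/-!
# No disjoint NP-pair is hard relative to a generic oracle
-/

namespace Pool.Agent.J4H63.ESY

open MeasureTheory Pool.Agent.NPC Pool.Agent.H628R3.RO Filter

theorem isClosed_of_loc {K : Set (List Bool)} (hK : K.Finite) {S : Set Oracle} (h : Loc K S) :
    IsClosed S := by
  have : Finite K := hK
  let r : Oracle → (K → Bool) := fun A x => A x
  have hr : Continuous r := continuous_pi fun x => continuous_apply _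
  have hS : S = r ⁻¹' (r '' S) := by
    ext A
    constructor
    · intro hA
      exact ⟨A, hA, rfl⟩
    · rintro ⟨B, hB, hBA⟩
      refine (h B A ?_).1 hB
      intro x hx
      exact congrFun hBA ⟨x, hx⟩
  rw [hS]
  exact (Set.toFinite _).isClosed.preimage hr

section

variable {c c' : Polynomial ℕ} {N₁ N₂ : Oracle → List Bool → Prop}
  {R : Oracle → Oracle → List Bool → Prop} {n₀ : ℕ} {F G : Finset (List Bool)}

theorem isClosed_good (h₁ : Cert c N₁) (h₂ : Cert c N₂) (hR : Cert2 c' R) :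
    IsClosed (Good N₁ N₂ R n₀ F G) := by
  rw [good_eq hR]
  refine (isClosed_iInter fun q => ?_).inter ((isClosed_iInter fun q => ?_).inter
    (isClosed_iInter fun x => isClosed_iInter fun _ => isClosed_iInter fun τ =>
        isClosed_of_loc (finite_length_le _) (loc_cond h₁ h₂ hR x τ)))
  · exact isClosed_of_loc (finite_length_le (c.eval q.length))
      (M2.Loc.compl (M2.Loc.inter (h₁.loc q) (h₂.loc q)))
  refine isClosed_of_loc (finite_length_le (c.eval q.length)) fun A A' h => ?_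
  simp only [Set.mem_ofPred_eq]
  have e1 : N₁ A q ↔ N₁ A' q := h₁.loc q A A' h
  have e2 : N₂ A q ↔ N₂ A' q := h₂.loc q A A' h
  rw [e1, e2]

/-- nonempty open sets have positive probability -/
theorem prob_pos_of_isOpen {U : Set Oracle} (hU : IsOpen U) (hne : U.Nonempty) : 0 < prob U := by
  classical
  obtain ⟨A, hA⟩ := hne
  obtain ⟨I, u, hu, hsub⟩ := isOpen_pi_iff.1 hU A hA
  have h1 : {B : Oracle | ∀ x ∈ I.toList, B x = A x} ⊆ U := by
    intro B hB
    refine hsub fun i hi => ?_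
    rw [hB i (Finset.mem_toList.2 hi)]
    exact (hu i hi).2
  refine lt_of_lt_of_le ?_ (M2.prob_mono h1)
  rw [prob_agree _ I.nodup_toList]
  positivity

theorem residual_good (h₁ : Cert c N₁) (h₂ : Cert c N₂) (hR : Cert2 c' R) :
    ∀ᶠ A in residual Oracle, A ∉ Good N₁ N₂ R n₀ F G := by
  have h3 : interior (Good N₁ N₂ R n₀ F G) = ∅ := by
    by_contra hne
    have h4 := prob_pos_of_isOpen isOpen_interior (Set.nonempty_iff_ne_empty.2 hne)
    have h5 := M2.prob_mono (interior_subset (s := Good N₁ N₂ R n₀ F G))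
    rw [prob_good h₁ h₂ hR] at h5
    linarith
  exact residual_of_dense_open (isClosed_good h₁ h₂ hR).isOpen_compl
    (interior_eq_empty_iff_dense_compl.1 h3)

end

theorem main_gen {O : Oracle → Oracle} (hO : Ext O) : ∀ᶠ A in residual Oracle,
    ∃ L : Set (List Bool), IsNP (O A) L ∧ ∀ L₀ L₁ : Set (List Bool),
      IsPair (IsNP (O A)) L₀ L₁ → ∃ T : Oracle, Separates T L₀ L₁ ∧
        ¬ IsCoNP (join T (O A)) L := by
  classical
  have hgood : ∀ᶠ A in residual Oracle, ∀ (M₁ M₂ M : Alg × Polynomial ℕ) (n₀ : ℕ)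
      (F G : Finset (List Bool)),
      A ∉ Good (fun A => Acc M₁.1 M₁.2 (O A)) (fun A => Acc M₂.1 M₂.2 (O A))
        (fun T A => Acc M.1 M.2 (join T (O A))) n₀ F G := by
    simp only [eventually_countable_forall]
    intro M₁ M₂ M n₀ F G
    obtain ⟨c₁, h₁⟩ := acc_cert hO M₁.1 M₁.2
    obtain ⟨c₂, h₂⟩ := acc_cert hO M₂.1 M₂.2
    obtain ⟨c₃, h₃⟩ := acc_cert2 hO M.1 M.2
    have h₁' := h₁.mono (c' := c₁ + c₂) fun n => by rw [Polynomial.eval_add]; omega
    have h₂' := h₂.mono (c' := c₁ + c₂) fun n => by rw [Polynomial.eval_add]; omega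
    exact residual_good h₁' h₂' h₃
  filter_upwards [hgood] with A hA
  refine ⟨{x | InL A x}, isNP_inL hO A, fun L₀ L₁ hL => ?_⟩
  obtain ⟨T, hT, hT'⟩ := sep_of_good hO hA 0 hL
  refine ⟨T, hT, ?_⟩
  simpa only [Nat.zero_le, true_and] using hT'

theorem IsUP2.isNP {B : Oracle} {L : Set (List Bool)} (h : IsUP2 B L) : IsNP B L := by
  obtain ⟨V, p, h1, h2, _⟩ := h
  exact ⟨V, p, h1, h2⟩

theorem thm_random {O : Oracle → Oracle} (hO : Ext O) : ∀ᵐ A ∂randomOracle,
    ∃ L : Set (List Bool), IsUP2 (O A) L ∧ IsNP (O A) L ∧ NoPairHardFor (O A) L := by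
  filter_upwards [main hO] with A hA
  obtain ⟨L, h1, h2⟩ := hA
  refine ⟨L, h1, h1.isNP, fun L₀ L₁ h => ?_⟩
  obtain ⟨T, hT, hT'⟩ := h2 L₀ L₁ h
  exact ⟨T, hT, fun h => hT' (isP_isCoNP h), hT'⟩

theorem thm_gen {O : Oracle → Oracle} (hO : Ext O) : ∀ᶠ A in residual Oracle,
    ∃ L : Set (List Bool), IsNP (O A) L ∧ NoPairHardFor (O A) L := by
  filter_upwards [main_gen hO] with A hA
  obtain ⟨L, h1, h2⟩ := hA
  refine ⟨L, h1, fun L₀ L₁ h => ?_⟩
  obtain ⟨T, hT, hT'⟩ := h2 L₀ L₁ h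
  exact ⟨T, hT, fun h => hT' (isP_isCoNP h), hT'⟩

end Pool.Agent.J4H63.ESY
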