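import Pool.Agent.J4H63.ESY.Meas
import Pool.Agent.J4H63.ESY.Approx

/-!
# The good event is a null event
-/

namespace Pool.Agent.J4H63.ESY

open MeasureTheory Pool.Agent.NPC Pool.Agent.H628R3.RO Filter

theorem tendsto_eval_div (q : Polynomial ℕ) :
    Tendsto (fun h : ℕ => ((q.eval h : ℕ) : ℝ) / 2 ^ h) atTop (nhds 0) := by
  induction q using Polynomial.induction_on' with
  | add p q hp hq =>
    have := hp.add hq
    simp only [add_zero] at this
    refine this.congr fun h => ?_
    rw [Polynomial.eval_add]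
    push_cast
    ring
  | monomial n a =>
    have h1 := (tendsto_pow_const_div_const_pow_of_one_lt n (one_lt_two : (1 : ℝ) < 2)).const_mul
      (a : ℝ)
    rw [mul_zero] at h1
    refine h1.congr fun h => ?_
    rw [Polynomial.eval_monomial]
    push_cast
    ring

section

variable {c c' : Polynomial ℕ} {N₁ N₂ : Oracle → List Bool → Prop}
  {R : Oracle → Oracle → List Bool → Prop} {n₀ : ℕ} {F G : Finset (List Bool)}

theorem measurable_pl (k : ℕ) (x y : List Bool) : Measurable (pl k x y) := M2.measurable_plant _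

theorem measurable_pl2 (k : ℕ) (x y y' : List Bool) : Measurable (pl2 k x y y') :=
  M2.measurable_plant _

/-- the event that both the oracle and the planted oracle are good, and `x` is not in the
language -/
def both (D : Set Oracle) (k : ℕ) (x y : List Bool) : Set Oracle :=
  (D ∩ {A | InL A x}ᶜ) ∩ pl k x y ⁻¹' D

theorem upper (h₁ : Cert c N₁) (h₂ : Cert c N₂) (hR : Cert2 c' R) {k : ℕ}
    (hk : n₀ ≤ 5 * k) (t : ℕ) {l : ℕ} (hl : l = c'.eval (5 * k)) :
    (t : ℝ) * ∑ x ∈ strs (5 * k), ∑ y ∈ strs k,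
      prob (both (Good N₁ N₂ R n₀ F G) k x y) ≤
      2 ^ (5 * k) * ((t * (l + l * c.eval l) + l * (t * t + 2 ^ k * (2 * c.eval l + 1)) : ℕ) : ℝ) +
        l * (2 ^ (6 * k) * (4 * c.eval l + 1)) := by
  classical
  set D := Good N₁ N₂ R n₀ F G with hD
  set V := Viol N₁ N₂ l with hV
  set K0 : ℕ := t * (l + l * c.eval l) + l * (t * t + 2 ^ k * (2 * c.eval l + 1)) with hK0
  have hDm : MeasurableSet D := measurable_good h₁ h₂ hR
  have hVm : MeasurableSet V := measurable_viol h₁ h₂ l
  have hx1 : ∀ x ∈ strs (5 * k), (t : ℝ) * ∑ y ∈ strs k, prob (both D k x y) ≤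
      (K0 : ℝ) + l * ∑ y ∈ (strs k).offDiag, prob (Vᶜ ∩ pl2 k x y.1 y.2 ⁻¹' V) := by
    intro x hx
    have key : ∀ A : Oracle, (t : ℝ) * (cnt (strs k) (fun y => both D k x y) A : ℝ) ≤
        (K0 : ℝ) + l * (cnt (strs k).offDiag (fun y => Vᶜ ∩ pl2 k x y.1 y.2 ⁻¹' V) A : ℝ) := by
      intro A
      by_cases hA : A ∈ D ∧ ¬ InL A x
      · obtain ⟨hAD, hAx⟩ := hA
        have hAV : A ∉ V := by
          rintro ⟨q, _, h3, h4⟩
          exact hAD.1 q ⟨h3, h4⟩
        have e1 : cnt (strs k) (fun y => both D k x y) A =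
            ((strs k).filter (fun y => pl k x y A ∈ D)).card := by
          rw [cnt_filter]
          congr 1
          ext y
          simp only [Finset.mem_filter, both, Set.mem_inter_iff, hAD, Set.mem_compl_iff,
            Set.mem_ofPred_eq, hAx, not_false_eq_true, true_and, and_self, Set.mem_preimage]
        have e2 : cnt (strs k).offDiag (fun y => Vᶜ ∩ pl2 k x y.1 y.2 ⁻¹' V) A =
            (vset N₁ N₂ l A k x).card := by
          rw [cnt_filter]
          unfold vset
          congr 1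
          ext y
          simp only [Finset.mem_filter, Finset.mem_offDiag, Set.mem_inter_iff, Set.mem_compl_iff,
            hAV, not_false_eq_true, true_and, Set.mem_preimage, Finset.mem_product, ← hV]
          tauto
        have h := det h₁ h₂ hR hAD (mem_strs.1 hx) hk hAx t hl
        rw [e1, e2]
        have h' : t * ((strs k).filter (fun y => pl k x y A ∈ D)).card ≤
            K0 + l * (vset N₁ N₂ l A k x).card := by
          rw [hK0]
          calc _ ≤ _ := h
            _ = _ := by ring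
        exact_mod_cast h'
      · have : cnt (strs k) (fun y => both D k x y) A = 0 := by
          rw [cnt_filter, Finset.card_eq_zero]
          ext y
          simp only [Finset.mem_filter, both, Set.mem_inter_iff, Set.mem_compl_iff,
            Set.mem_ofPred_eq, Finset.notMem_empty, iff_false, not_and]
          intro _ h
          exact absurd h hA
        rw [this]
        push_cast
        rw [mul_zero]
        positivity
    have m1 : ∀ y ∈ strs k, MeasurableSet (both D k x y) := fun y _ =>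
      (hDm.inter (measurable_inL x).compl).inter (measurable_pl k x y hDm)
    have m2 : ∀ y ∈ (strs k).offDiag, MeasurableSet (Vᶜ ∩ pl2 k x y.1 y.2 ⁻¹' V) := fun y _ =>
      hVm.compl.inter (measurable_pl2 k x y.1 y.2 hVm)
    have i1 := integrable_cnt (strs k) (fun y => both D k x y) m1
    have i2 := integrable_cnt (strs k).offDiag (fun y => Vᶜ ∩ pl2 k x y.1 y.2 ⁻¹' V) m2
    have h := integral_mono (i1.const_mul (t : ℝ)) ((integrable_const (K0 : ℝ)).add
      (i2.const_mul (l : ℝ))) key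
    simp only [Pi.add_apply] at h
    rw [integral_add (integrable_const _) (i2.const_mul _), integral_const_mul,
      integral_const_mul, integral_cnt _ _ m1, integral_cnt _ _ m2, integral_const] at h
    simp only [probReal_univ, one_smul] at h
    exact h
  rw [Finset.mul_sum]
  refine (Finset.sum_le_sum hx1).trans ?_
  rw [Finset.sum_add_distrib, Finset.sum_const, card_strs, nsmul_eq_mul, ← Finset.mul_sum]
  push_cast
  gcongr
  exact sum_viol_le h₁ h₂ l k

theorem lower {D C : Set Oracle} (hDm : MeasurableSet D) {k₀ k : ℕ}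
    (hC : Loc {s | s.length ≤ k₀} C) (hk : k₀ ≤ 5 * k) :
    2 ^ (6 * k) * (prob (D ∩ C) - (1 / 4) ^ k) - 2 ^ (3 * k) *
      (3 / 2 * 2 ^ (3 * k) * prob (C \ D) + 1 / 2) ≤
      ∑ x ∈ strs (5 * k), ∑ y ∈ strs k, prob (both D k x y) := by
  classical
  have hCm : MeasurableSet C := measurableSet_of_loc (finite_length_le _) hC
  have h1 : ∀ x ∈ strs (5 * k), ∀ y ∈ strs k, prob (D ∩ C) - (1 / 4) ^ k -
      2 ^ (3 * k) * prob ((C \ D) ∩ ones (blk k x y)) ≤ prob (both D k x y) := by
    intro x hx y _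
    have hsub : D ∩ C ⊆ (both D k x y ∪ {A | InL A x}) ∪ pl k x y ⁻¹' (C \ D) := by
      rintro A ⟨hA, hAC⟩
      by_cases h2 : InL A x
      · exact Or.inl (Or.inr h2)
      by_cases h3 : pl k x y A ∈ D
      · exact Or.inl (Or.inl ⟨⟨hA, h2⟩, h3⟩)
      · refine Or.inr ⟨?_, h3⟩
        refine (hC A _ fun s hs => ?_).1 hAC
        refine (pl_of_not_mem fun hb => ?_).symm
        have h4 := length_of_mem_blk hb
        rw [mem_strs] at hx
        simp only [Set.mem_ofPred_eq] at hs
        omega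
    have h2 := (M2.prob_mono hsub).trans ((M2.prob_union_le _ _).trans
      (add_le_add_left (M2.prob_union_le _ _) _))
    have h3 : prob (pl k x y ⁻¹' (C \ D)) = 2 ^ (3 * k) * prob ((C \ D) ∩ ones (blk k x y)) := by
      have := prob_plant' (hCm.diff hDm) (blk k x y)
      rw [card_blk, Set.inter_comm] at this
      exact this
    have h4 := prob_inL_le hx
    rw [h3] at h2
    linarith
  have h2 : ∑ x ∈ strs (5 * k), ∑ y ∈ strs k, (prob (D ∩ C) - (1 / 4) ^ k -
      2 ^ (3 * k) * prob ((C \ D) ∩ ones (blk k x y))) ≤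
      ∑ x ∈ strs (5 * k), ∑ y ∈ strs k, prob (both D k x y) :=
    Finset.sum_le_sum fun x hx => Finset.sum_le_sum fun y hy => h1 x hx y hy
  refine le_trans ?_ h2
  have h3 : ∑ x ∈ strs (5 * k), ∑ y ∈ strs k, (prob (D ∩ C) - (1 / 4) ^ k -
      2 ^ (3 * k) * prob ((C \ D) ∩ ones (blk k x y))) =
      2 ^ (6 * k) * (prob (D ∩ C) - (1 / 4) ^ k) - 2 ^ (3 * k) *
        ∑ κ ∈ strs (5 * k) ×ˢ strs k, prob ((C \ D) ∩ ones (blk k κ.1 κ.2)) := by
    rw [Finset.sum_product, Finset.mul_sum]
    simp only [Finset.sum_sub_distrib, Finset.sum_const, card_strs, nsmul_eq_mul,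
      Finset.mul_sum]
    push_cast
    have : (2 : ℝ) ^ (6 * k) = 2 ^ (5 * k) * 2 ^ k := by rw [← pow_add]; congr 1; ring
    rw [this]
    ring
  rw [h3]
  have h4 := sum_inter_le (hCm.diff hDm) k
  have h5 : (0 : ℝ) ≤ 2 ^ (3 * k) := by positivity
  have h6 := mul_le_mul_of_nonneg_left h4 h5
  linarith

/-- The good event has probability zero. -/
theorem prob_good (h₁ : Cert c N₁) (h₂ : Cert c N₂) (hR : Cert2 c' R) :
    prob (Good N₁ N₂ R n₀ F G) = 0 := by
  set D := Good N₁ N₂ R n₀ F G with hD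
  have hDm : MeasurableSet D := measurable_good h₁ h₂ hR
  by_contra hne
  have hpos : 0 < prob D := lt_of_le_of_ne (M2.prob_nonneg _) (Ne.symm hne)
  set δ := prob D with hδ
  obtain ⟨k₀, C, hC, hC1, hC2⟩ := approx hDm (ε := δ / 8) (by linarith)
  have hCm : MeasurableSet C := measurableSet_of_loc (finite_length_le _) hC
  have hDC : 7 / 8 * δ ≤ prob (D ∩ C) := by
    have := M2.prob_inter_add_compl D hCm
    rw [← Set.sdiff_eq] at this
    linarith
  set q : Polynomial ℕ := (c'.comp (10 * Polynomial.X)) *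
    (7 * c.comp (c'.comp (10 * Polynomial.X)) + 4) with hq
  have ht1 := tendsto_eval_div q
  have ht2 : Tendsto (fun h : ℕ => (1 / 4 : ℝ) ^ h) atTop (nhds 0) :=
    tendsto_pow_atTop_nhds_zero_of_lt_one (by norm_num) (by norm_num)
  obtain ⟨h, hh⟩ := ((ht1.eventually_lt_const (show (0 : ℝ) < δ / 8 by linarith)).and
    ((ht2.eventually_lt_const (show (0 : ℝ) < δ / 8 by linarith)).and
      (eventually_ge_atTop (n₀ + k₀ + 1)))).exists
  obtain ⟨hh1, hh2, hh3⟩ := hh
  set k := 2 * h with hk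
  have hlow := lower hDm hC (show k₀ ≤ 5 * k by omega)
  have hup := upper (n₀ := n₀) (F := F) (G := G) h₁ h₂ hR (show n₀ ≤ 5 * k by omega) (2 ^ h)
    (l := c'.eval (5 * k)) rfl
  rw [← hD] at hup
  set l := c'.eval (5 * k) with hl
  set c2 := c.eval l with hc2
  set T : ℝ := 2 ^ h with hT
  have hT0 : 0 < T := by positivity
  have hT1 : 1 ≤ T := one_le_pow₀ (by norm_num)
  have e1 : (2 : ℝ) ^ (5 * k) = T ^ 10 := by rw [hT, ← pow_mul, hk]; congr 1; ring
  have e2 : (2 : ℝ) ^ (6 * k) = T ^ 12 := by rw [hT, ← pow_mul, hk]; congr 1; ring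
  have e3 : (2 : ℝ) ^ (3 * k) = T ^ 6 := by rw [hT, ← pow_mul, hk]; congr 1; ring
  have e4 : (2 : ℝ) ^ k = T ^ 2 := by rw [hT, ← pow_mul, hk]; congr 1; ring
  have e5 : ((q.eval h : ℕ) : ℝ) = l * (7 * c2 + 4) := by
    have : q.eval h = l * (7 * c2 + 4) := by
      rw [hq, Polynomial.eval_mul, Polynomial.eval_add, Polynomial.eval_mul,
        Polynomial.eval_comp, Polynomial.eval_comp, Polynomial.eval_comp, Polynomial.eval_mul,
        Polynomial.eval_X, Polynomial.eval_ofNat, Polynomial.eval_ofNat, Polynomial.eval_ofNat,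
        hc2, hl, hk]
      congr 2 <;> ring_nf
    rw [this]
    push_cast
    ring
  rw [e5] at hh1
  set S0 := ∑ x ∈ strs (5 * k), ∑ y ∈ strs k, prob (both D k x y) with hS
  rw [e2, e3] at hlow
  push_cast at hup
  rw [← hT, e1, e2, e4] at hup
  -- upper bound
  have hl0 : (0 : ℝ) ≤ l := Nat.cast_nonneg _
  have hc0 : (0 : ℝ) ≤ c2 := Nat.cast_nonneg _
  have hup' : T * S0 ≤ T ^ 12 * (l * (7 * c2 + 4)) := by
    refine hup.trans ?_
    have a1 : T ^ 10 * (T * (l + l * c2) + l * (T * T + T ^ 2 * (2 * c2 + 1))) +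
        l * (T ^ 12 * (4 * c2 + 1)) = T ^ 11 * (l * (1 + c2)) + T ^ 12 * (l * (6 * c2 + 3)) := by
      ring
    rw [a1]
    have a2 : T ^ 11 * (l * (1 + c2)) ≤ T ^ 12 * (l * (1 + c2)) := by
      refine mul_le_mul_of_nonneg_right (pow_le_pow_right₀ hT1 (by norm_num)) (by positivity)
    calc _ ≤ T ^ 12 * (l * (1 + c2)) + T ^ 12 * (l * (6 * c2 + 3)) := by linarith
      _ = _ := by ring
  have hup2 : S0 ≤ T ^ 12 * (δ / 8) := by
    rw [div_lt_iff₀ hT0] at hh1
    have b1 : T * S0 ≤ T * (T ^ 12 * (δ / 8)) := by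
      refine hup'.trans ?_
      calc T ^ 12 * (l * (7 * c2 + 4)) ≤ T ^ 12 * (δ / 8 * T) :=
            mul_le_mul_of_nonneg_left hh1.le (by positivity)
        _ = _ := by ring
    exact le_of_mul_le_mul_left b1 hT0
  have hlow2 : T ^ 12 * (δ / 2) ≤ S0 := by
    refine le_trans ?_ hlow
    have b1 : (1 / 4 : ℝ) ^ k ≤ (1 / 4) ^ h := by
      apply pow_le_pow_of_le_one (by norm_num) (by norm_num)
      omega
    have b2 : T ^ 6 * (3 / 2 * T ^ 6 * prob (C \ D) + 1 / 2) ≤
        T ^ 12 * (3 / 2 * (δ / 8) + 1 / 2 * (1 / 4) ^ h) := by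
      have b3 : T ^ 6 * (1 / 2) ≤ T ^ 12 * (1 / 2 * (1 / 4) ^ h) := by
        have b4 : T ^ 2 * (1 / 4) ^ h = 1 := by
          rw [hT, ← pow_mul, mul_comm h 2, pow_mul, ← mul_pow]; norm_num
        have b5 : T ^ 12 * (1 / 2 * (1 / 4) ^ h) = T ^ 10 * (1 / 2) * (T ^ 2 * (1 / 4) ^ h) := by
          ring
        rw [b5, b4, mul_one]
        exact mul_le_mul_of_nonneg_right (pow_le_pow_right₀ hT1 (by norm_num)) (by norm_num)
      have b6 : T ^ 12 * (3 / 2 * prob (C \ D)) ≤ T ^ 12 * (3 / 2 * (δ / 8)) := by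
        refine mul_le_mul_of_nonneg_left ?_ (by positivity)
        linarith
      calc T ^ 6 * (3 / 2 * T ^ 6 * prob (C \ D) + 1 / 2) =
          T ^ 12 * (3 / 2 * prob (C \ D)) + T ^ 6 * (1 / 2) := by ring
        _ ≤ T ^ 12 * (3 / 2 * (δ / 8)) + T ^ 12 * (1 / 2 * (1 / 4) ^ h) := add_le_add b6 b3
        _ = _ := by ring
    have b7 : T ^ 12 * (δ / 2) ≤ T ^ 12 * (prob (D ∩ C) - (1 / 4) ^ k) -
        T ^ 12 * (3 / 2 * (δ / 8) + 1 / 2 * (1 / 4) ^ h) := by
      rw [← mul_sub]
      refine mul_le_mul_of_nonneg_left ?_ (by positivity)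
      linarith
    linarith
  have hfin : T ^ 12 * (δ / 2) ≤ T ^ 12 * (δ / 8) := hlow2.trans hup2
  have := le_of_mul_le_mul_left hfin (by positivity)
  linarith

end

end Pool.Agent.J4H63.ESY
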