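import Pool.Agent.J4H63.ESY.Prob2

/-!
# The good event is measurable
-/

namespace Pool.Agent.J4H63.ESY

open MeasureTheory Pool.Agent.NPC Pool.Agent.H628R3.RO

section

variable {c c' : Polynomial ℕ} {N₁ N₂ N : Oracle → List Bool → Prop}
  {R : Oracle → Oracle → List Bool → Prop} {n₀ : ℕ} {F G : Finset (List Bool)}

theorem Cert.loc (h : Cert c N) (q : List Bool) :
    Loc {s | s.length ≤ c.eval q.length} {A | N A q} := by
  refine loc_of_imp fun A A' hA hN => ?_
  obtain ⟨S, _, h3, h4⟩ := h A q hN
  exact h4 A' fun s hs => (hA s (h3 s hs)).symm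

theorem Cert.measurable (h : Cert c N) (q : List Bool) : MeasurableSet {A | N A q} :=
  measurableSet_of_loc (finite_length_le _) (h.loc q)

theorem Cert2.congr (h : Cert2 c' R) {T T' A A' : Oracle} {x : List Bool}
    (hT : ∀ q : List Bool, q.length ≤ c'.eval x.length → T q = T' q)
    (hA : ∀ q : List Bool, q.length ≤ c'.eval x.length → A q = A' q) : R T A x ↔ R T' A' x := by
  constructor
  · intro hR
    obtain ⟨S, S', _, _, h3, h4, h5⟩ := h T A x hR
    exact h5 T' A' (fun s hs => (hT s (h3 s hs)).symm) fun s hs => (hA s (h4 s hs)).symm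
  · intro hR
    obtain ⟨S, S', _, _, h3, h4, h5⟩ := h T' A' x hR
    exact h5 T A (fun s hs => hT s (h3 s hs)) fun s hs => hA s (h4 s hs)

/-- the oracle given by a finite set -/
noncomputable def ofF (τ : Finset (List Bool)) : Oracle := open Classical in fun q => decide (q ∈ τ)

/-- one of the countably many conditions -/
def cond (c' : Polynomial ℕ) (N₁ N₂ : Oracle → List Bool → Prop)
    (R : Oracle → Oracle → List Bool → Prop) (F G : Finset (List Bool)) (x : List Bool)
    (τ : Finset (List Bool)) : Set Oracle :=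
  {A | (∀ q : List Bool, q.length ≤ c'.eval x.length →
      (N₁ A q → q ∈ τ) ∧ (N₂ A q → q ∉ τ) ∧ (q ∈ F → (q ∈ τ ↔ q ∈ G))) →
    (R (ofF τ) A x ↔ ¬ InL A x)}

theorem loc_cond (h₁ : Cert c N₁) (h₂ : Cert c N₂) (hR : Cert2 c' R) (x : List Bool)
    (τ : Finset (List Bool)) :
    Loc {s | s.length ≤ c.eval (c'.eval x.length) + c'.eval x.length + (2 * x.length + 2)}
      (cond c' N₁ N₂ R F G x τ) := by
  intro A A' h
  simp only [cond, Set.mem_ofPred_eq]
  have e1 : ∀ q : List Bool, q.length ≤ c'.eval x.length → (N₁ A q ↔ N₁ A' q) := by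
    intro q hq
    refine h₁.loc q A A' fun s hs => h s ?_
    have := eval_mono c hq
    simp only [Set.mem_ofPred_eq] at hs ⊢
    omega
  have e2 : ∀ q : List Bool, q.length ≤ c'.eval x.length → (N₂ A q ↔ N₂ A' q) := by
    intro q hq
    refine h₂.loc q A A' fun s hs => h s ?_
    have := eval_mono c hq
    simp only [Set.mem_ofPred_eq] at hs ⊢
    omega
  have e3 : R (ofF τ) A x ↔ R (ofF τ) A' x := hR.congr (fun _ _ => rfl) fun q hq => h q (by
    simp only [Set.mem_ofPred_eq]; omega)
  have e4 : InL A x ↔ InL A' x := loc_inL x A A' fun s hs => h s (by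
    simp only [Set.mem_ofPred_eq] at hs ⊢; omega)
  rw [e3, e4]
  refine imp_congr_left (forall₂_congr fun q hq => ?_)
  rw [e1 q hq, e2 q hq]

theorem good_eq (hR : Cert2 c' R) :
    Good N₁ N₂ R n₀ F G = (⋂ q : List Bool, ({A | N₁ A q} ∩ {A | N₂ A q})ᶜ) ∩
      ((⋂ q : List Bool, {A | q ∈ F → (N₁ A q → q ∈ G) ∧ (N₂ A q → q ∉ G)}) ∩
        ⋂ x : List Bool, ⋂ _ : n₀ ≤ x.length, ⋂ τ : Finset (List Bool),
          cond c' N₁ N₂ R F G x τ) := by
  classical
  ext A
  simp only [Good, Set.mem_inter_iff, Set.mem_iInter, Set.mem_ofPred_eq, Set.mem_compl_iff]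
  refine and_congr_right fun hdisj => and_congr_right fun hcons => ?_
  constructor
  · intro h x hx τ hτ
    set T : Oracle := fun q => if q.length ≤ c'.eval x.length then decide (q ∈ τ) else
      if q ∈ F then decide (q ∈ G) else decide (N₁ A q) with hT
    have hsep : Sep N₁ N₂ A T := by
      intro q
      by_cases hq : q.length ≤ c'.eval x.length
      · obtain ⟨h1, h2, _⟩ := hτ q hq
        simp only [hT, if_pos hq]
        exact ⟨fun h => by simpa using h1 h, fun h => by simpa using h2 h⟩
      · simp only [hT, if_neg hq]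
        by_cases hF : q ∈ F
        · obtain ⟨h1, h2⟩ := hcons q hF
          simp only [if_pos hF]
          exact ⟨fun h => by simpa using h1 h, fun h => by simpa using h2 h⟩
        · simp only [if_neg hF]
          refine ⟨fun h => by simpa using h, fun h => ?_⟩
          have : ¬ N₁ A q := fun h' => hdisj q ⟨h', h⟩
          simpa using this
    have hTF : ∀ q ∈ F, (T q = true ↔ q ∈ G) := by
      intro q hF
      by_cases hq : q.length ≤ c'.eval x.length
      · simp only [hT, if_pos hq, decide_eq_true_eq]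
        exact (hτ q hq).2.2 hF
      · simp only [hT, if_neg hq, if_pos hF, decide_eq_true_eq]
    rw [← h T hsep hTF x hx]
    refine hR.congr (fun q hq => ?_) fun _ _ => rfl
    simp only [hT, if_pos hq, ofF]
  · intro h T hsep hTF x hx
    set τ : Finset (List Bool) := (finite_length_le (c'.eval x.length)).toFinset.filter
      (fun q => T q = true) with hτ
    have hmem : ∀ q : List Bool, q.length ≤ c'.eval x.length → (q ∈ τ ↔ T q = true) := by
      intro q hq
      rw [hτ, Finset.mem_filter, Set.Finite.mem_toFinset]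
      exact ⟨fun h => h.2, fun h => ⟨hq, h⟩⟩
    rw [← h x hx τ ?_]
    · refine hR.congr (fun q hq => ?_) fun _ _ => rfl
      unfold ofF
      by_cases h1 : T q = true
      · rw [h1, decide_eq_true ((hmem q hq).2 h1)]
      · rw [Bool.not_eq_true] at h1
        rw [h1, decide_eq_false]
        rw [hmem q hq, h1]
        simp
    · intro q hq
      rw [hmem q hq]
      refine ⟨(hsep q).1, fun h2 => ?_, hTF q⟩
      rw [(hsep q).2 h2]
      simp

theorem measurable_good (h₁ : Cert c N₁) (h₂ : Cert c N₂) (hR : Cert2 c' R) :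
    MeasurableSet (Good N₁ N₂ R n₀ F G) := by
  rw [good_eq hR]
  refine (MeasurableSet.iInter fun q => ((h₁.measurable q).inter (h₂.measurable q)).compl).inter
    ((MeasurableSet.iInter fun q => ?_).inter (MeasurableSet.iInter fun x =>
      MeasurableSet.iInter fun _ => MeasurableSet.iInter fun τ =>
        measurableSet_of_loc (finite_length_le _) (loc_cond h₁ h₂ hR x τ)))
  refine measurableSet_of_loc (finite_length_le (c.eval q.length)) fun A A' h => ?_
  simp only [Set.mem_ofPred_eq]
  have e1 : N₁ A q ↔ N₁ A' q := h₁.loc q A A' h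
  have e2 : N₂ A q ↔ N₂ A' q := h₂.loc q A A' h
  rw [e1, e2]

end

end Pool.Agent.J4H63.ESY
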