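import Pool.Agent.J4H63.ESY.Det
import Pool.Agent.H628R3.RO.D1

/-!
# The probabilistic estimates
-/

namespace Pool.Agent.J4H63.ESY

open MeasureTheory Pool.Agent.NPC Pool.Agent.H628R3.RO

/-- all strings of `J` are in the oracle -/
def ones (J : Finset (List Bool)) : Set Oracle := {A | ∀ s ∈ J, A s = true}

theorem loc_ones (J : Finset (List Bool)) : Loc (J : Set (List Bool)) (ones J) := by
  intro A A' h
  simp only [ones, Set.mem_ofPred_eq]
  exact forall₂_congr fun s hs => by rw [h s hs]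

theorem measurable_ones (J : Finset (List Bool)) : MeasurableSet (ones J) :=
  measurableSet_of_loc J.finite_toSet (loc_ones J)

theorem ones_union (J J' : Finset (List Bool)) : ones (J ∪ J') = ones J ∩ ones J' := by
  ext A
  simp only [ones, Set.mem_ofPred_eq, Set.mem_inter_iff, Finset.mem_union]
  constructor
  · intro h
    exact ⟨fun s hs => h s (Or.inl hs), fun s hs => h s (Or.inr hs)⟩
  · rintro ⟨h1, h2⟩ s (hs | hs)
    · exact h1 s hs
    · exact h2 s hs

theorem prob_ones (J : Finset (List Bool)) : prob (ones J) = (1 / 2) ^ J.card := by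
  have h := prob_plant MeasurableSet.univ J
  rw [Set.inter_univ, Set.preimage_univ, prob_univ', mul_one] at h
  exact h

theorem prob_plant' {S : Set Oracle} (hS : MeasurableSet S) (J : Finset (List Bool)) :
    prob (plant J ⁻¹' S) = 2 ^ J.card * prob (ones J ∩ S) := by
  have h := prob_plant hS J
  change prob (ones J ∩ S) = _ at h
  rw [h, ← mul_assoc, ← mul_pow]
  norm_num

open Classical in
/-- the number of the events which occur -/
noncomputable def cnt {ι : Type} (I : Finset ι) (S : ι → Set Oracle) (A : Oracle) : ℕ :=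
  (I.filter (fun i => A ∈ S i)).card

theorem cnt_filter {ι : Type} (I : Finset ι) (S : ι → Set Oracle) (A : Oracle)
    [DecidablePred fun i => A ∈ S i] : cnt I S A = (I.filter (fun i => A ∈ S i)).card := by
  unfold cnt
  congr

theorem cnt_sum {ι : Type} (I : Finset ι) (S : ι → Set Oracle) (A : Oracle)
    [DecidablePred fun i => A ∈ S i] : cnt I S A = ∑ i ∈ I, if A ∈ S i then 1 else 0 := by
  rw [cnt_filter, Finset.card_filter]

theorem mem_cnt {ι : Type} {I : Finset ι} {S : ι → Set Oracle} {A : Oracle} {f : ι → List Bool}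
    {J : Finset (List Bool)} (hf : ∀ i ∈ I, A ∈ S i → f i ∈ J)
    (hinj : ∀ i ∈ I, ∀ j ∈ I, A ∈ S i → A ∈ S j → f i = f j → i = j) : cnt I S A ≤ J.card := by
  classical
  rw [cnt_filter]
  refine Finset.card_le_card_of_injOn f ?_ ?_
  · intro i hi
    have := Finset.mem_filter.1 (Finset.mem_coe.1 hi)
    exact hf i this.1 this.2
  · intro i hi j hj h
    have h1 := Finset.mem_filter.1 (Finset.mem_coe.1 hi)
    have h2 := Finset.mem_filter.1 (Finset.mem_coe.1 hj)
    exact hinj i h1.1 j h2.1 h1.2 h2.2 h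

theorem cnt_eq {ι : Type} (I : Finset ι) (S : ι → Set Oracle) (A : Oracle) :
    (cnt I S A : ℝ) = ∑ i ∈ I, (S i).indicator (fun _ => (1 : ℝ)) A := by
  classical
  unfold cnt
  rw [Finset.card_filter]
  push_cast
  refine Finset.sum_congr rfl fun i _ => ?_
  by_cases h : A ∈ S i <;> simp [h]

theorem integrable_cnt {ι : Type} (I : Finset ι) (S : ι → Set Oracle)
    (hS : ∀ i ∈ I, MeasurableSet (S i)) :
    Integrable (fun A => (cnt I S A : ℝ)) randomOracle := by
  simp only [cnt_eq]
  exact integrable_finsetSum _ fun i hi => (integrable_const (1 : ℝ)).indicator (hS i hi)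

theorem integral_cnt {ι : Type} (I : Finset ι) (S : ι → Set Oracle)
    (hS : ∀ i ∈ I, MeasurableSet (S i)) :
    ∫ A, (cnt I S A : ℝ) ∂randomOracle = ∑ i ∈ I, prob (S i) := by
  simp only [cnt_eq]
  rw [integral_finsetSum _ fun i hi => (integrable_const (1 : ℝ)).indicator (hS i hi)]
  refine Finset.sum_congr rfl fun i hi => ?_
  rw [integral_indicator_const _ (hS i hi)]
  simp [prob]

/-! ### The number of planted blocks concentrates -/

theorem blk_disjoint {k : ℕ} {x x' y y' : List Bool} (hy : y ∈ strs k) (hy' : y' ∈ strs k)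
    (h : (x, y) ≠ (x', y')) : Disjoint (blk k x y) (blk k x' y') := by
  rw [Finset.disjoint_left]
  intro s h1 h2
  have h3 : y.length = y'.length := by rw [mem_strs.1 hy, mem_strs.1 hy']
  obtain ⟨rfl, rfl⟩ := blk_disj h3 h1 h2
  exact h rfl

theorem sum_inter_le {Z : Set Oracle} (hZ : MeasurableSet Z) (k : ℕ) :
    ∑ κ ∈ strs (5 * k) ×ˢ strs k, prob (Z ∩ ones (blk k κ.1 κ.2)) ≤
      3 / 2 * 2 ^ (3 * k) * prob Z + 1 / 2 := by
  classical
  set I := strs (5 * k) ×ˢ strs k with hI
  set H : List Bool × List Bool → Set Oracle := fun κ => ones (blk k κ.1 κ.2) with hH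
  set μ : ℝ := 2 ^ (3 * k) with hμ
  have hμ0 : 0 < μ := by positivity
  have hcard : (I.card : ℝ) = μ * μ := by
    rw [hI, Finset.card_product, card_strs, card_strs, hμ]
    push_cast
    rw [← pow_add, ← pow_add]
    congr 1
    ring
  have hp : ∀ κ ∈ I, prob (H κ) = μ⁻¹ := by
    intro κ _
    rw [hH]
    simp only
    rw [prob_ones, card_blk, hμ, one_div, inv_pow]
  have hmH : ∀ κ, MeasurableSet (H κ) := fun κ => measurable_ones _
  have e1 : ∑ κ ∈ I, prob (H κ) = μ := by
    rw [Finset.sum_congr rfl hp, Finset.sum_const, nsmul_eq_mul, hcard]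
    field_simp
  have e2 : ∑ κ ∈ I ×ˢ I, prob (H κ.1 ∩ H κ.2) ≤ μ + μ * μ := by
    have h1 : ∀ κ ∈ I ×ˢ I, prob (H κ.1 ∩ H κ.2) ≤ (if κ.1 = κ.2 then μ⁻¹ else 0) +
        μ⁻¹ * μ⁻¹ := by
      intro κ hκ
      obtain ⟨h2, h3⟩ := Finset.mem_product.1 hκ
      by_cases heq : κ.1 = κ.2
      · rw [if_pos heq, heq, Set.inter_self, hp _ h3]
        have : 0 ≤ μ⁻¹ * μ⁻¹ := by positivity
        linarith
      · rw [if_neg heq, zero_add, hH]
        simp only
        rw [← ones_union, prob_ones, Finset.card_union_of_disjoint, card_blk, card_blk, pow_add,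
          hμ, one_div, inv_pow]
        exact blk_disjoint (Finset.mem_product.1 h2).2 (Finset.mem_product.1 h3).2 heq
    refine (Finset.sum_le_sum h1).trans ?_
    rw [Finset.sum_add_distrib, Finset.sum_const, nsmul_eq_mul, Finset.card_product]
    have h4 : ∑ κ ∈ I ×ˢ I, (if κ.1 = κ.2 then μ⁻¹ else 0) = μ := by
      rw [Finset.sum_product]
      have : ∀ a ∈ I, ∑ b ∈ I, (if a = b then μ⁻¹ else 0) = μ⁻¹ := by
        intro a ha
        rw [Finset.sum_ite_eq, if_pos ha]
      rw [Finset.sum_congr rfl this, Finset.sum_const, nsmul_eq_mul, hcard]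
      field_simp
    rw [h4]
    push_cast
    rw [hcard]
    have : μ * μ * (μ * μ) * (μ⁻¹ * μ⁻¹) = μ * μ := by field_simp
    linarith
  have key : ∀ A : Oracle, (cnt I (fun κ => Z ∩ H κ) A : ℝ) ≤
      3 / 2 * μ * (cnt {()} (fun _ => Z) A : ℝ) +
        1 / (2 * μ) * ((cnt (I ×ˢ I) (fun κ => H κ.1 ∩ H κ.2) A : ℝ) -
          2 * μ * (cnt I H A : ℝ) + μ * μ) := by
    intro A
    have h1 : (cnt (I ×ˢ I) (fun κ => H κ.1 ∩ H κ.2) A) = cnt I H A * cnt I H A := by
      unfold cnt
      rw [← Finset.card_product]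
      congr 1
      ext κ
      simp only [Finset.mem_filter, Finset.mem_product, Set.mem_inter_iff]
      tauto
    rw [h1]
    push_cast
    set N : ℝ := (cnt I H A : ℝ) with hN
    have h2 : 1 / (2 * μ) * (N * N - 2 * μ * N + μ * μ) = (N - μ) ^ 2 / (2 * μ) := by
      field_simp
      ring
    rw [h2]
    have h3 : 0 ≤ (N - μ) ^ 2 / (2 * μ) := by positivity
    by_cases hAZ : A ∈ Z
    · have h4 : cnt I (fun κ => Z ∩ H κ) A = cnt I H A := by
        unfold cnt
        congr 1
        ext κ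
        simp [hAZ]
      have h5 : cnt {()} (fun _ => Z) A = 1 := by
        unfold cnt
        rw [Finset.filter_true_of_mem (fun _ _ => hAZ)]
        rfl
      rw [h4, h5, ← hN]
      have h6 : N - 3 / 2 * μ ≤ (N - μ) ^ 2 / (2 * μ) := by
        rw [le_div_iff₀ (by positivity)]
        nlinarith [sq_nonneg (N - 2 * μ)]
      push_cast
      linarith
    · have h4 : cnt I (fun κ => Z ∩ H κ) A = 0 := by
        unfold cnt
        rw [Finset.card_eq_zero]
        ext κ
        simp [hAZ]
      rw [h4]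
      push_cast
      positivity
  have i1 := integrable_cnt I (fun κ => Z ∩ H κ) fun κ _ => hZ.inter (hmH κ)
  have i2 := integrable_cnt {()} (fun _ => Z) fun _ _ => hZ
  have i3 := integrable_cnt (I ×ˢ I) (fun κ => H κ.1 ∩ H κ.2) fun κ _ => (hmH _).inter (hmH _)
  have i4 := integrable_cnt I H fun κ _ => hmH κ
  have i6 : Integrable (fun A => (cnt (I ×ˢ I) (fun κ => H κ.1 ∩ H κ.2) A : ℝ) -
      2 * μ * (cnt I H A : ℝ)) randomOracle := i3.sub (i4.const_mul _)
  have i5 : Integrable (fun A => (cnt (I ×ˢ I) (fun κ => H κ.1 ∩ H κ.2) A : ℝ) -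
      2 * μ * (cnt I H A : ℝ) + μ * μ) randomOracle := i6.add (integrable_const _)
  have h := integral_mono i1 ((i2.const_mul (3 / 2 * μ)).add (i5.const_mul (1 / (2 * μ)))) key
  have j1 := integral_cnt I (fun κ => Z ∩ H κ) fun κ _ => hZ.inter (hmH κ)
  have j2 := integral_cnt {()} (fun _ => Z) fun _ _ => hZ
  have j3 := integral_cnt (I ×ˢ I) (fun κ => H κ.1 ∩ H κ.2) fun κ _ => (hmH _).inter (hmH _)
  have j4 := integral_cnt I H fun κ _ => hmH κ
  have j6 : ∫ A, ((cnt (I ×ˢ I) (fun κ => H κ.1 ∩ H κ.2) A : ℝ) -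
      2 * μ * (cnt I H A : ℝ) + μ * μ) ∂randomOracle =
      ∑ κ ∈ I ×ˢ I, prob (H κ.1 ∩ H κ.2) - 2 * μ * μ + μ * μ := by
    rw [integral_add i6 (integrable_const _), integral_sub i3 (i4.const_mul _),
      integral_const_mul, j3, j4, e1, integral_const]
    simp only [probReal_univ, one_smul]
  rw [j1] at h
  simp only [Pi.add_apply] at h
  rw [integral_add (i2.const_mul _) (i5.const_mul _), integral_const_mul, integral_const_mul, j2,
    j6, Finset.sum_singleton] at h
  refine h.trans ?_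
  have h7 : 1 / (2 * μ) * (∑ κ ∈ I ×ˢ I, prob (H κ.1 ∩ H κ.2) - 2 * μ * μ + μ * μ) ≤
      1 / (2 * μ) * (μ + μ * μ - 2 * μ * μ + μ * μ) := by
    refine mul_le_mul_of_nonneg_left ?_ (by positivity)
    linarith
  have h8 : 1 / (2 * μ) * (μ + μ * μ - 2 * μ * μ + μ * μ) = 1 / 2 := by
    field_simp
    ring
  linarith

end Pool.Agent.J4H63.ESY
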