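import Pool.Agent.J4H63.ESY.Prob
import Pool.Agent.H628R3.RO.D2

/-!
# The probability that planting creates a violation
-/

namespace Pool.Agent.J4H63.ESY

open MeasureTheory Pool.Agent.NPC Pool.Agent.H628R3.RO

theorem length_of_mem_blk {k : ℕ} {x y s : List Bool} (hs : s ∈ blk k x y) :
    x.length + y.length + 2 ≤ s.length ∧ s.length ≤ x.length + y.length + 3 * k + 2 := by
  unfold blk at hs
  rw [M2.mem_spots] at hs
  obtain ⟨i, hi, rfl⟩ := hs
  rw [length_pos, List.length_append]
  omega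

theorem loc_inL (x : List Bool) : Loc {s | s.length ≤ 2 * x.length + 2} {A | InL A x} := by
  intro A A' h
  simp only [Set.mem_ofPred_eq, InL]
  refine exists_congr fun y => and_congr_right fun hy => ?_
  rw [hit_iff_blk, hit_iff_blk]
  refine forall₂_congr fun s hs => ?_
  have := length_of_mem_blk hs
  rw [h s (by simp only [Set.mem_ofPred_eq]; omega)]

theorem measurable_inL (x : List Bool) : MeasurableSet {A | InL A x} :=
  measurableSet_of_loc (finite_length_le _) (loc_inL x)

theorem prob_inL_le {k : ℕ} {x : List Bool} (hx : x ∈ strs (5 * k)) :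
    prob {A | InL A x} ≤ (1 / 4) ^ k := by
  have h1 : {A | InL A x} ⊆ ⋃ y ∈ strs k, ones (blk k x y) := by
    rintro A ⟨y, hy, h⟩
    rw [mem_strs] at hx
    have hyk : y.length = k := by omega
    rw [hyk, hit_iff_blk] at h
    simp only [Set.mem_iUnion]
    exact ⟨y, mem_strs.2 hyk, h⟩
  refine (M2.prob_mono h1).trans ((measureReal_biUnion_finset_le _ _).trans ?_)
  have h2 : ∀ y ∈ strs k, randomOracle.real (ones (blk k x y)) = (1 / 2 : ℝ) ^ (3 * k) := by
    intro y _
    have := prob_ones (blk k x y)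
    rw [card_blk] at this
    exact this
  rw [Finset.sum_congr rfl h2, Finset.sum_const, card_strs, nsmul_eq_mul]
  push_cast
  rw [pow_mul, ← mul_pow]
  norm_num

/-! ### Triples -/

/-- triples of different elements -/
def trip (H : Finset (List Bool)) : Finset (List Bool × List Bool × List Bool) :=
  (H ×ˢ H ×ˢ H).filter (fun t => t.1 ≠ t.2.1 ∧ t.1 ≠ t.2.2 ∧ t.2.1 ≠ t.2.2)

theorem pair_le_trip (H : Finset (List Bool)) : H.offDiag.card ≤ 2 + (trip H).card := by
  rcases Nat.lt_or_ge H.card 3 with h | h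
  · rw [Finset.offDiag_card]
    interval_cases H.card <;> omega
  · have h1 : H.offDiag ⊆ (trip H).image (fun t => (t.1, t.2.1)) := by
      rintro ⟨a, b⟩ hab
      rw [Finset.mem_offDiag] at hab
      obtain ⟨ha, hb, hne⟩ := hab
      simp only at ha hb hne
      have h2 : ∃ c ∈ H, c ∉ ({a, b} : Finset (List Bool)) := by
        by_contra hno
        push_neg at hno
        have := Finset.card_le_card hno
        have h3 := Finset.card_le_two (a := a) (b := b)
        omega
      obtain ⟨c, hc, hcn⟩ := h2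
      simp only [Finset.mem_insert, Finset.mem_singleton, not_or] at hcn
      refine Finset.mem_image.2 ⟨(a, b, c), Finset.mem_filter.2 ⟨?_, ?_⟩, rfl⟩
      · simp [ha, hb, hc]
      · exact ⟨hne, fun h => hcn.1 h.symm, fun h => hcn.2 h.symm⟩
    refine (Finset.card_le_card h1).trans (Finset.card_image_le.trans ?_)
    omega

/-- three given witnesses for `x` -/
def ev3 (k : ℕ) (x : List Bool) (t : List Bool × List Bool × List Bool) : Set Oracle :=
  ones (blk k x t.1 ∪ (blk k x t.2.1 ∪ blk k x t.2.2))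

theorem prob_ev3 {k : ℕ} {x : List Bool} {t : List Bool × List Bool × List Bool}
    (ht : t ∈ trip (strs k)) : prob (ev3 k x t) = (1 / 2) ^ (9 * k) := by
  obtain ⟨h1, h2, h3, h4⟩ := Finset.mem_filter.1 ht
  simp only [Finset.mem_product] at h1
  obtain ⟨a1, a2, a3⟩ := h1
  unfold ev3
  rw [prob_ones]
  congr 1
  rw [Finset.card_union_of_disjoint, Finset.card_union_of_disjoint, card_blk, card_blk, card_blk]
  · ring
  · exact blk_disjoint a2 a3 (fun h => h4 (Prod.ext_iff.1 h).2)
  · rw [Finset.disjoint_union_right]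
    exact ⟨blk_disjoint a1 a2 (fun h => h2 (Prod.ext_iff.1 h).2),
      blk_disjoint a1 a3 (fun h => h3 (Prod.ext_iff.1 h).2)⟩

theorem sum_trip_le (k : ℕ) :
    ∑ x ∈ strs (5 * k), ∑ t ∈ trip (strs k), prob (ev3 k x t) ≤ (1 / 2) ^ k := by
  have h1 : ∀ x ∈ strs (5 * k), ∑ t ∈ trip (strs k), prob (ev3 k x t) ≤
      2 ^ (3 * k) * (1 / 2) ^ (9 * k) := by
    intro x _
    rw [Finset.sum_congr rfl fun t ht => prob_ev3 ht, Finset.sum_const, nsmul_eq_mul]
    refine mul_le_mul_of_nonneg_right ?_ (by positivity)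
    have : (trip (strs k)).card ≤ 2 ^ (3 * k) := by
      refine (Finset.card_filter_le _ _).trans ?_
      rw [Finset.card_product, Finset.card_product, card_strs, ← pow_add, ← pow_add]
      exact (Nat.pow_le_pow_right (by norm_num) (by omega))
    exact_mod_cast this
  refine (Finset.sum_le_sum h1).trans ?_
  rw [Finset.sum_const, card_strs, nsmul_eq_mul]
  push_cast
  have h2 : (1 / 2 : ℝ) ^ (9 * k) = (1 / 2) ^ k * ((1 / 2) ^ (5 * k) * (1 / 2) ^ (3 * k)) := by
    rw [← pow_add, ← pow_add]; congr 1; ring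
  have h3 : (2 : ℝ) ^ (5 * k) * (1 / 2) ^ (5 * k) = 1 := by rw [← mul_pow]; norm_num
  have h4 : (2 : ℝ) ^ (3 * k) * (1 / 2) ^ (3 * k) = 1 := by rw [← mul_pow]; norm_num
  rw [h2]
  calc (2 : ℝ) ^ (5 * k) * (2 ^ (3 * k) * ((1 / 2) ^ k * ((1 / 2) ^ (5 * k) * (1 / 2) ^ (3 * k))))
      = (2 ^ (5 * k) * (1 / 2) ^ (5 * k)) * (2 ^ (3 * k) * (1 / 2) ^ (3 * k)) * (1 / 2) ^ k := by
        ring
    _ ≤ (1 / 2) ^ k := by rw [h3, h4]; simp

/-! ### Violations -/

section

variable {c : Polynomial ℕ} {N₁ N₂ : Oracle → List Bool → Prop}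

theorem viol_cert (h₁ : Cert c N₁) (h₂ : Cert c N₂) (l : ℕ) {A : Oracle}
    (hA : A ∈ Viol N₁ N₂ l) : ∃ S : Finset (List Bool), S.card ≤ 2 * c.eval l ∧
      (∀ s ∈ S, s.length ≤ c.eval l) ∧ ∀ A' : Oracle, (∀ s ∈ S, A' s = A s) →
        A' ∈ Viol N₁ N₂ l := by
  classical
  obtain ⟨q, hq, hq1, hq2⟩ := hA
  obtain ⟨S, a1, a2, a3⟩ := h₁ A q hq1
  obtain ⟨S', b1, b2, b3⟩ := h₂ A q hq2
  have hc := eval_mono c hq
  refine ⟨S ∪ S', (Finset.card_union_le _ _).trans (by omega), ?_, ?_⟩
  · intro s hs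
    rcases Finset.mem_union.1 hs with hs | hs
    · exact (a2 s hs).trans hc
    · exact (b2 s hs).trans hc
  · intro A' h
    exact ⟨q, hq, a3 A' fun s hs => h s (Finset.mem_union_left _ hs),
      b3 A' fun s hs => h s (Finset.mem_union_right _ hs)⟩

theorem loc_viol (h₁ : Cert c N₁) (h₂ : Cert c N₂) (l : ℕ) :
    Loc {s | s.length ≤ c.eval l} (Viol N₁ N₂ l) := by
  refine loc_of_imp fun A A' h hA => ?_
  obtain ⟨S, _, h3, h4⟩ := viol_cert h₁ h₂ l hA
  exact h4 A' fun s hs => (h s (h3 s hs)).symm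

theorem measurable_viol (h₁ : Cert c N₁) (h₂ : Cert c N₂) (l : ℕ) :
    MeasurableSet (Viol N₁ N₂ l) :=
  measurableSet_of_loc (finite_length_le _) (loc_viol h₁ h₂ l)

/-- Planting two witnesses at a random place rarely creates a violation. -/
theorem sum_viol_le (h₁ : Cert c N₁) (h₂ : Cert c N₂) (l k : ℕ) :
    ∑ x ∈ strs (5 * k), ∑ y ∈ (strs k).offDiag,
      prob ((Viol N₁ N₂ l)ᶜ ∩ pl2 k x y.1 y.2 ⁻¹' Viol N₁ N₂ l) ≤
      2 ^ (6 * k) * (4 * c.eval l + 1) := by
  classical
  set V := Viol N₁ N₂ l with hV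
  set K : Set (List Bool) := {s | s.length ≤ c.eval l} with hK
  have hKf : K.Finite := finite_length_le _
  have hloc : Loc K V := loc_viol h₁ h₂ l
  have hmask : ∀ B, B ∈ V ↔ M2.mask K B ∈ V := fun B =>
    hloc B _ fun s hs => (M2.mask_eq hs).symm
  have hex : ∀ B, B ∈ V → ∃ S : Finset (List Bool), S.card ≤ 2 * c.eval l ∧
      (∀ s ∈ S, s.length ≤ c.eval l) ∧ ∀ A' : Oracle, (∀ s ∈ S, A' s = B s) → A' ∈ V :=
    fun B hB => viol_cert h₁ h₂ l hB
  choose! cf hcf1 hcf2 hcf3 using hex
  -- the event that the canonical certificate touches `x`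
  let U : List Bool → Set Oracle := fun x =>
    {B | B ∈ V ∧ ∃ y ∈ strs k, ∃ s ∈ cf (M2.mask K B), s ∈ blk k x y}
  have hU : ∀ x, Loc K (U x) := by
    intro x B B' h
    simp only [U, Set.mem_ofPred_eq]
    rw [hloc B B' h, M2.mask_congr h]
  have hUm : ∀ x, MeasurableSet (U x) := fun x => measurableSet_of_loc hKf (hU x)
  have hcount : ∀ B, cnt (strs (5 * k)) U B ≤ 2 * c.eval l := by
    intro B
    by_cases hB : B ∈ V
    · refine le_trans ?_ (hcf1 _ ((hmask B).1 hB))
      have h3 : ∀ x, B ∈ U x → ∃ s ∈ cf (M2.mask K B), ∃ y ∈ strs k, s ∈ blk k x y := by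
        rintro x ⟨_, y, hy, s, hs, h⟩
        exact ⟨s, hs, y, hy, h⟩
      choose! f hf g hg hfg using h3
      refine mem_cnt (f := f) (fun x _ hx => hf x hx) ?_
      intro x _ x' _ hx hx' heq
      have a1 := hfg x hx
      have a2 := hfg x' hx'
      rw [heq] at a1
      refine (blk_disj ?_ a1 a2).1
      rw [mem_strs.1 (hg x hx), mem_strs.1 (hg x' hx')]
    · have : cnt (strs (5 * k)) U B = 0 := by
        unfold cnt
        rw [Finset.card_eq_zero]
        ext x
        simp [U, hB]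
      omega
  have hsub : ∀ x ∈ strs (5 * k), ∀ y ∈ (strs k).offDiag,
      prob (Vᶜ ∩ pl2 k x y.1 y.2 ⁻¹' V) ≤
        2 ^ (6 * k) * prob (U x ∩ ones (blk k x y.1 ∪ blk k x y.2)) := by
    intro x _ y hy
    rw [Finset.mem_offDiag] at hy
    have h3 : Vᶜ ∩ pl2 k x y.1 y.2 ⁻¹' V ⊆ pl2 k x y.1 y.2 ⁻¹' U x := by
      rintro A ⟨hA, hA'⟩
      refine ⟨hA', ?_⟩
      by_contra hno
      push_neg at hno
      set B := pl2 k x y.1 y.2 A with hB
      refine hA (hcf3 _ ((hmask B).1 hA') A fun s hs => ?_)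
      have hsK : s ∈ K := hcf2 _ ((hmask B).1 hA') s hs
      rw [M2.mask_eq hsK, hB, pl2_left (hno y.2 hy.2.1 s hs),
        pl_of_not_mem (hno y.1 hy.1 s hs)]
    refine (M2.prob_mono h3).trans (le_of_eq ?_)
    have h4 := prob_plant' (hUm x) (blk k x y.1 ∪ blk k x y.2)
    have h5 : (blk k x y.1 ∪ blk k x y.2).card = 6 * k := by
      rw [Finset.card_union_of_disjoint, card_blk, card_blk]
      · ring
      · exact blk_disjoint hy.1 hy.2.1 (fun h => hy.2.2 (Prod.ext_iff.1 h).2)
    rw [h5, Set.inter_comm] at h4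
    exact h4
  -- the pointwise bound
  have key : ∀ B : Oracle, ∑ x ∈ strs (5 * k),
      (cnt (strs k).offDiag (fun y => U x ∩ ones (blk k x y.1 ∪ blk k x y.2)) B : ℝ) ≤
      (2 * (2 * c.eval l : ℕ) : ℝ) +
        ∑ x ∈ strs (5 * k), (cnt (trip (strs k)) (fun t => ev3 k x t) B : ℝ) := by
    intro B
    have h3 : ∀ x ∈ strs (5 * k),
        cnt (strs k).offDiag (fun y => U x ∩ ones (blk k x y.1 ∪ blk k x y.2)) B ≤
        2 * (if B ∈ U x then 1 else 0) + cnt (trip (strs k)) (fun t => ev3 k x t) B := by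
      intro x _
      by_cases hx : B ∈ U x
      · rw [if_pos hx]
        set H := (strs k).filter (fun y => B ∈ ones (blk k x y)) with hH
        have e1 : cnt (strs k).offDiag (fun y => U x ∩ ones (blk k x y.1 ∪ blk k x y.2)) B =
            H.offDiag.card := by
          unfold cnt
          congr 1
          ext y
          simp only [Finset.mem_filter, Finset.mem_offDiag, Set.mem_inter_iff, hx, true_and, hH,
            ones_union]
          tauto
        have e2 : cnt (trip (strs k)) (fun t => ev3 k x t) B = (trip H).card := by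
          unfold cnt
          congr 1
          ext t
          simp only [Finset.mem_filter, trip, Finset.mem_product, hH, ev3, ones_union,
            Set.mem_inter_iff]
          tauto
        rw [e1, e2]
        exact pair_le_trip H
      · have : cnt (strs k).offDiag (fun y => U x ∩ ones (blk k x y.1 ∪ blk k x y.2)) B = 0 := by
          unfold cnt
          rw [Finset.card_eq_zero]
          ext y
          simp [hx]
        omega
    have h4 : ∑ x ∈ strs (5 * k), (if B ∈ U x then 1 else 0) = cnt (strs (5 * k)) U B :=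
      (cnt_sum _ _ _).symm
    have h5 : ∑ x ∈ strs (5 * k),
        cnt (strs k).offDiag (fun y => U x ∩ ones (blk k x y.1 ∪ blk k x y.2)) B ≤
        2 * (2 * c.eval l) + ∑ x ∈ strs (5 * k), cnt (trip (strs k)) (fun t => ev3 k x t) B := by
      refine (Finset.sum_le_sum h3).trans ?_
      rw [Finset.sum_add_distrib, ← Finset.mul_sum, h4]
      have := hcount B
      omega
    exact_mod_cast h5
  have m1 : ∀ x, ∀ y : List Bool × List Bool,
      MeasurableSet (U x ∩ ones (blk k x y.1 ∪ blk k x y.2)) :=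
    fun x y => (hUm x).inter (measurable_ones _)
  have m2 : ∀ x t, MeasurableSet (ev3 k x t) := fun x t => measurable_ones _
  have i1 : Integrable (fun B => ∑ x ∈ strs (5 * k),
      (cnt (strs k).offDiag (fun y => U x ∩ ones (blk k x y.1 ∪ blk k x y.2)) B : ℝ))
      randomOracle :=
    integrable_finsetSum _ fun x _ => integrable_cnt _ _ fun y _ => m1 x y
  have i2 : Integrable (fun B => ∑ x ∈ strs (5 * k),
      (cnt (trip (strs k)) (fun t => ev3 k x t) B : ℝ)) randomOracle :=
    integrable_finsetSum _ fun x _ => integrable_cnt _ _ fun t _ => m2 x t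
  have h := integral_mono i1 ((integrable_const _).add i2) key
  simp only [Pi.add_apply] at h
  rw [integral_add (integrable_const _) i2, integral_finsetSum _ fun x _ =>
      integrable_cnt _ _ fun y _ => m1 x y,
    integral_finsetSum _ fun x _ => integrable_cnt _ _ fun t _ => m2 x t, integral_const] at h
  simp only [probReal_univ, one_smul] at h
  rw [Finset.sum_congr rfl fun x _ => integral_cnt _ _ fun y _ => m1 x y,
    Finset.sum_congr rfl fun x _ => integral_cnt _ _ fun t _ => m2 x t] at h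
  have hfin : ∑ x ∈ strs (5 * k), ∑ y ∈ (strs k).offDiag,
      prob (U x ∩ ones (blk k x y.1 ∪ blk k x y.2)) ≤ 4 * c.eval l + 1 := by
    refine h.trans ?_
    have h6 := sum_trip_le k
    have h7 : (1 / 2 : ℝ) ^ k ≤ 1 := pow_le_one₀ (by norm_num) (by norm_num)
    push_cast
    linarith
  calc ∑ x ∈ strs (5 * k), ∑ y ∈ (strs k).offDiag, prob (Vᶜ ∩ pl2 k x y.1 y.2 ⁻¹' V)
      ≤ ∑ x ∈ strs (5 * k), ∑ y ∈ (strs k).offDiag,
        2 ^ (6 * k) * prob (U x ∩ ones (blk k x y.1 ∪ blk k x y.2)) :=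
        Finset.sum_le_sum fun x hx => Finset.sum_le_sum fun y hy => hsub x hx y hy
    _ = 2 ^ (6 * k) * ∑ x ∈ strs (5 * k), ∑ y ∈ (strs k).offDiag,
        prob (U x ∩ ones (blk k x y.1 ∪ blk k x y.2)) := by
        rw [Finset.mul_sum]
        exact Finset.sum_congr rfl fun x _ => (Finset.mul_sum _ _ _).symm
    _ ≤ _ := mul_le_mul_of_nonneg_left hfin (by positivity)

end

end Pool.Agent.J4H63.ESY
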